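import Pool.Agent.Work.MP_8f87b2_h88.DisU

/-!
MP_8f87b2_co: THE LAW FOR BLOCKS WITH MARKERS. Child block `(q, X, Y)`, parent block `(q', X', Y')`, `q < q'`. The
contents are `cont X = MX + HX` (markers and heavy parts), the same multiset of markers `MX + MY = MX' + MY'` in both
blocks; heavy parts of the child larger than `q + 3`, heavy parts of the parent at least `q' + 3`; every top component
of `X`, `Y` has height at least `q + 4`, every top component of `X'`, `Y'` height at least `q' + 3` (`HC`).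
`blk_lawM`: a common word only in the cases `I0.LawB` (the same table as for unmarked blocks).
-/

set_option autoImplicit false

namespace Pool.OddHC

open Finset Equiv BinaryTree Multiset Pool.Agent.Work.MP_8f87b2_co

namespace BwL

open I0

/-- every top component has height at least `m` -/
def HC (m : ℕ) : BinaryTree Unit → Prop
  | .nil => True
  | .node _ A C => m ≤ OddHC.ht A + 1 ∧ HC m C

theorem HC.nil (m : ℕ) : HC m .nil := trivial

theorem HC.mk {m : ℕ} {A C : BinaryTree Unit} (h : m ≤ OddHC.ht A + 1) (h' : HC m C) : HC m (A △ C) := ⟨h, h'⟩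

theorem HC.mono {m n : ℕ} (hn : n ≤ m) : ∀ {X : BinaryTree Unit}, HC m X → HC n X := by
  intro X
  induction X with
  | nil => intro _; trivial
  | node _ A C _ ih =>
    intro h
    exact ⟨hn.trans h.1, ih h.2⟩

theorem HC.app {m : ℕ} : ∀ {X Y : BinaryTree Unit}, HC m X → HC m Y → HC m (app X Y) := by
  intro X
  induction X with
  | nil => intro Y _ h; exact h
  | node _ A C _ ih =>
    intro Y h h'
    exact ⟨h.1, ih h.2 h'⟩

theorem HC.le {m : ℕ} {X : BinaryTree Unit} (h : HC m X) (h0 : X ≠ .nil) : m ≤ OddHC.ht X := by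
  cases X with
  | nil => exact absurd rfl h0
  | node _ A C =>
    rw [OddHC.ht_node]
    exact h.1.trans (le_max_left _ _)

theorem HC.fs {m : ℕ} {X : BinaryTree Unit} (h : HC m X) (h0 : X ≠ .nil) :
    m ≤ OddHC.ht (OddHC.fs X) + 1 := by
  cases X with
  | nil => exact absurd rfl h0
  | node _ A C => exact h.1

theorem HC.ls {m : ℕ} : ∀ {X : BinaryTree Unit}, HC m X → X ≠ .nil →
    m ≤ OddHC.ht (OddHC.ls X) + 1 := by
  intro X
  induction X with
  | nil => intro _ h0; exact absurd rfl h0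
  | node _ A C _ ih =>
    intro h _
    by_cases hC : C = .nil
    · rw [hC, ls_single]
      exact h.1
    · rw [ls_node _ hC]
      exact ih h.2 hC

/-- `(X)Y` -/
theorem HC.node {m : ℕ} {X Y : BinaryTree Unit} (h : HC m X) (h0 : X ≠ .nil) (h' : HC m Y) :
    HC m (X △ Y) := ⟨(h.le h0).trans (Nat.le_succ _), h'⟩

theorem hc_split {m : ℕ} {x x' B B' : BinaryTree Unit} (hx : OddHC.ht x + 1 < m) (hx' : OddHC.ht x' + 1 < m) :
    ∀ {S S' : BinaryTree Unit}, HC m S → HC m S' → OddHC.app S (x △ B) = OddHC.app S' (x' △ B') →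
      S = S' ∧ x = x' ∧ B = B' := by
  intro S
  induction S with
  | nil =>
    intro S' _ h' h
    cases S' with
    | nil =>
      have h1 := congrArg OddHC.fs h
      have h2 := congrArg OddHC.tl h
      exact ⟨rfl, h1, h2⟩
    | node _ A C =>
      have h1 := congrArg OddHC.fs h
      have h2 : x = A := h1
      have h3 := h'.1
      rw [← h2] at h3
      omega
  | node _ A C _ ih =>
    intro S' hS h' h
    cases S' with
    | nil =>
      have h1 := congrArg OddHC.fs h
      have h2 : A = x' := h1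
      have h3 := hS.1
      rw [h2] at h3
      omega
    | node _ A' C' =>
      have h1 : A = A' := congrArg OddHC.fs h
      have h2 : OddHC.app C (x △ B) = OddHC.app C' (x' △ B') := congrArg OddHC.tl h
      obtain ⟨h3, h4, h5⟩ := ih hS.2 h'.2 h2
      exact ⟨by rw [h1, h3], h4, h5⟩

/-- markers `M` and heavy parts `H` of a forest -/
structure CM (m : ℕ) (X : BinaryTree Unit) (M H : Multiset ℕ) : Prop where
  eq : OddHC.cont X = M + H
  small : ∀ x ∈ M, x < m
  heavy : ∀ x ∈ H, m ≤ x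
  ne : X ≠ .nil → H ≠ 0

variable {m d : ℕ} {X Y X' Y' : BinaryTree Unit} {MX HX MY HY MX' HX' MY' HY' : Multiset ℕ}

theorem CM.zero (h : CM m .nil MX HX) : MX = 0 ∧ HX = 0 := by
  have h1 := h.eq
  rw [cont_nil] at h1
  exact add_eq_zero.1 h1.symm

theorem lt_add {c : ℕ} {A C : Multiset ℕ} (hA : ∀ x ∈ A, x < c) (hC : ∀ x ∈ C, x < c) :
    ∀ x ∈ A + C, x < c := by
  intro x hx
  rw [Multiset.mem_add] at hx
  exact hx.elim (hA x) (hC x)

theorem ge_add {c : ℕ} {A C : Multiset ℕ} (hA : ∀ x ∈ A, c ≤ x) (hC : ∀ x ∈ C, c ≤ x) :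
    ∀ x ∈ A + C, c ≤ x := by
  intro x hx
  rw [Multiset.mem_add] at hx
  exact hx.elim (hA x) (hC x)

/-- the content of a word, `Y` empty -/
theorem cont_F (hm : d + 3 ≤ m) (h : CM m X MX HX) (X0 : X ≠ .nil) {i : ℕ} (hi : i < 10) :
    ∃ H, OddHC.cont (blk (pc (d + 1)) X .nil i) = smU d (kapF i) + MX + H ∧ ∀ x ∈ H, m ≤ x := by
  have H0 := h.ne X0
  have l1 : ∀ x ∈ ({1} : Multiset ℕ), x < m := lt_single (by omega)
  have lq1 : ∀ x ∈ ({d + 1} + {1} : Multiset ℕ), x < m := lt_pair (by omega) (by omega)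
  have Xh := raise_hv h.heavy H0
  have rx : raise (MX + HX) = MX + raise HX := raise_add h.small h.heavy H0
  have r3 : raise (MX + HX + ({1} + {d + 1})) = {d + 1} + {1} + MX + raise HX := by
    have e : MX + HX + ({1} + {d + 1}) = ({d + 1} + {1} + MX) + HX := by abel
    rw [e, raise_add (lt_add lq1 h.small) h.heavy H0]
  have r7 : raise ({1} + (MX + HX)) = {1} + MX + raise HX := by
    have e : {1} + (MX + HX) = ({1} + MX) + HX := by abel
    rw [e, raise_add (lt_add l1 h.small) h.heavy H0]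
  have r9 : raise (MX + raise HX) = MX + raise (raise HX) := raise_add h.small Xh (raise_ne_zero _)
  have hq := cont_pc d
  have eq1 : raise {d + 1} = {d + 2} := raise_single _
  have eq2 : raise {d + 2} = {d + 3} := raise_single _
  have hz := raise_zero
  have r2 := raise_two d
  interval_cases i <;> simp only [kapF, smU, smc, blk, cont_node, cont_app, cont_nil, hq, eq1, eq2, hz,
    h.eq, add_zero, zero_add, if_true, if_false, one_ne_zero, OfNat.ofNat_ne_zero, rx, r3, r7, r9, r2]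
  · exact ⟨HX, by abel, h.heavy⟩
  · exact ⟨HX, by abel, h.heavy⟩
  · exact ⟨HX, by abel, h.heavy⟩
  · exact ⟨raise HX, by abel, Xh⟩
  · exact ⟨HX, by abel, h.heavy⟩
  · exact ⟨HX, by abel, h.heavy⟩
  · exact ⟨raise HX, by abel, Xh⟩
  · exact ⟨raise HX, by abel, Xh⟩
  · exact ⟨raise HX, by abel, Xh⟩
  · exact ⟨raise (raise HX), by abel, raise_hv Xh (raise_ne_zero _)⟩

/-- the content of a word, `Y` not empty -/
theorem cont_I (hm : d + 3 ≤ m) (hX : CM m X MX HX) (hY : CM m Y MY HY) (Y0 : Y ≠ .nil) {e : Bool}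
    (he : e = true ↔ X = .nil) {i : ℕ} (hi : i < 10) :
    ∃ H, OddHC.cont (blk (pc (d + 1)) X Y i) = smU d (kapI e i) + (MX + MY) + H ∧ ∀ x ∈ H, m ≤ x := by
  have HY0 := hY.ne Y0
  have l1 : ∀ x ∈ ({1} : Multiset ℕ), x < m := lt_single (by omega)
  have lq1 : ∀ x ∈ ({d + 1} + {1} : Multiset ℕ), x < m := lt_pair (by omega) (by omega)
  have Yh := raise_hv hY.heavy HY0
  have ry : raise (MY + HY) = MY + raise HY := raise_add hY.small hY.heavy HY0
  have r4 : raise ({d + 1} + ({1} + (MY + HY))) = {d + 1} + {1} + MY + raise HY := by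
    have e : {d + 1} + ({1} + (MY + HY)) = ({d + 1} + {1} + MY) + HY := by abel
    rw [e, raise_add (lt_add lq1 hY.small) hY.heavy HY0]
  have hq := cont_pc d
  have eq1 : raise {d + 1} = {d + 2} := raise_single _
  have eq2 : raise {d + 2} = {d + 3} := raise_single _
  have hz := raise_zero
  have r2 : raise ({1} + {d + 1}) = {d + 2} + {1} := by rw [add_comm {1}]; exact raise_two d
  cases e with
  | true =>
    obtain rfl := he.1 rfl
    obtain ⟨rfl, rfl⟩ := hX.zero
    have r9 : raise (MY + HY + {1}) = {1} + MY + raise HY := by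
      have e : MY + HY + {1} = ({1} + MY) + HY := by abel
      rw [e, raise_add (lt_add l1 hY.small) hY.heavy HY0]
    have r7 : raise (MY + raise HY) = MY + raise (raise HY) :=
      raise_add hY.small Yh (raise_ne_zero _)
    interval_cases i <;> simp only [kapI, smU, smc, blk, cont_node, cont_app, cont_nil, hq, eq1, eq2,
      hz, hY.eq, add_zero, zero_add, if_true, if_false, one_ne_zero, OfNat.ofNat_ne_zero, ry, r4, r9,
      r7, r2]
    · exact ⟨HY, by abel, hY.heavy⟩
    · exact ⟨HY, by abel, hY.heavy⟩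
    · exact ⟨raise HY, by abel, Yh⟩
    · exact ⟨HY, by abel, hY.heavy⟩
    · exact ⟨raise HY, by abel, Yh⟩
    · exact ⟨raise HY, by abel, Yh⟩
    · exact ⟨HY, by abel, hY.heavy⟩
    · exact ⟨raise (raise HY), by abel, raise_hv Yh (raise_ne_zero _)⟩
    · exact ⟨HY, by abel, hY.heavy⟩
    · exact ⟨raise HY, by abel, Yh⟩
  | false =>
    have X0 : X ≠ .nil := by
      intro g
      exact absurd (he.2 g) (by simp)
    have HX0 := hX.ne X0
    have Xh := raise_hv hX.heavy HX0
    have rx : raise (MX + HX) = MX + raise HX := raise_add hX.small hX.heavy HX0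
    have r3 : raise (MX + HX + ({1} + {d + 1})) = {d + 1} + {1} + MX + raise HX := by
      have e : MX + HX + ({1} + {d + 1}) = ({d + 1} + {1} + MX) + HX := by abel
      rw [e, raise_add (lt_add lq1 hX.small) hX.heavy HX0]
    have r7 : raise (MY + raise HY + (MX + HX)) = MX + MY + raise (raise HY + HX) := by
      have e : MY + raise HY + (MX + HX) = (MX + MY) + (raise HY + HX) := by abel
      rw [e, raise_add (lt_add hX.small hY.small) (ge_add Yh hX.heavy)]
      intro g
      exact HX0 (add_eq_zero.1 g).2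
    have r9 : raise (MY + HY + (MX + raise HX)) = MX + MY + raise (HY + raise HX) := by
      have e : MY + HY + (MX + raise HX) = (MX + MY) + (HY + raise HX) := by abel
      rw [e, raise_add (lt_add hX.small hY.small) (ge_add hY.heavy Xh)]
      intro g
      exact HY0 (add_eq_zero.1 g).1
    interval_cases i <;> simp only [kapI, smU, smc, blk, cont_node, cont_app, cont_nil, hq, eq1, eq2,
      hz, hY.eq, hX.eq, add_zero, if_true, if_false, one_ne_zero, OfNat.ofNat_ne_zero, ry, r4, r9,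
      r7, r3, rx, Bool.false_eq_true]
    · exact ⟨HX + HY, by abel, ge_add hX.heavy hY.heavy⟩
    · exact ⟨HX + HY, by abel, ge_add hX.heavy hY.heavy⟩
    · exact ⟨HX + raise HY, by abel, ge_add hX.heavy Yh⟩
    · exact ⟨raise HX + HY, by abel, ge_add Xh hY.heavy⟩
    · exact ⟨HX + raise HY, by abel, ge_add hX.heavy Yh⟩
    · exact ⟨HX + raise HY, by abel, ge_add hX.heavy Yh⟩
    · exact ⟨raise HX + HY, by abel, ge_add Xh hY.heavy⟩
    · refine ⟨raise (raise HY + HX), by abel, raise_hv (ge_add Yh hX.heavy) ?_⟩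
      intro g
      exact HX0 (add_eq_zero.1 g).2
    · exact ⟨raise HX + HY, by abel, ge_add Xh hY.heavy⟩
    · refine ⟨raise (HY + raise HX), by abel, raise_hv (ge_add hY.heavy Xh) ?_⟩
      intro g
      exact HY0 (add_eq_zero.1 g).1

/-- content of a word of a block -/
theorem contM (hm : d + 3 ≤ m) (hX : CM m X MX HX) (hY : CM m Y MY HY) (h0 : X ≠ .nil ∨ Y ≠ .nil)
    {f e : Bool} (hf : f = true ↔ Y = .nil) (he : e = true ↔ X = .nil) {i : ℕ} (hi : i < 10) :
    ∃ H, OddHC.cont (blk (pc (d + 1)) X Y i) = smU d (kapB f e i) + (MX + MY) + H ∧ ∀ x ∈ H, m ≤ x := by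
  unfold kapB
  cases f with
  | true =>
    obtain rfl := hf.1 rfl
    obtain ⟨rfl, rfl⟩ := hY.zero
    rw [add_zero]
    exact cont_F hm hX (h0.resolve_right (fun h => h rfl)) hi
  | false => exact cont_I hm hX hY (fun h => absurd (hf.2 h) (by simp)) he hi

/-! ### heights at the ends -/

/-- is the first (last) component light -/
def lt1 (m : ℕ) (t : BinaryTree Unit) : Bool := decide (OddHC.ht t + 1 < m)

theorem lt1_t {m : ℕ} {t : BinaryTree Unit} (h : OddHC.ht t + 1 < m) : lt1 m t = true := decide_eq_true h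

theorem lt1_f {m : ℕ} {t : BinaryTree Unit} (h : m ≤ OddHC.ht t + 1) : lt1 m t = false :=
  decide_eq_false (by omega)

/-- profile, `Y` empty -/
def prF : ℕ → Bool × Bool
  | 1 => (false, true)
  | 2 => (true, true)
  | 3 => (false, false)
  | 4 => (true, false)
  | 5 => (true, false)
  | 6 => (false, true)
  | 7 => (true, false)
  | 8 => (true, false)
  | 9 => (false, true)
  | _ => (false, false)

/-- profile, `Y` not empty -/
def prI (e : Bool) : ℕ → Bool × Bool
  | 1 => (e, false)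
  | 2 => (false, true)
  | 3 => (false, e)
  | 4 => (false, false)
  | 5 => (true, false)
  | 6 => (false, true)
  | 7 => (true, false)
  | 8 => (true, e)
  | 9 => (false, true)
  | _ => (false, false)

/-- profile of a word of a block -/
def prB (f e : Bool) (i : ℕ) : Bool × Bool := if f then prF i else prI e i

theorem ht_nil0 : OddHC.ht (BinaryTree.nil : BinaryTree Unit) = 0 := rfl

theorem ht_app_le (X Y : BinaryTree Unit) : OddHC.ht Y ≤ OddHC.ht (OddHC.app X Y) := by
  induction X with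
  | nil => exact le_rfl
  | node _ A C _ ih =>
    change OddHC.ht Y ≤ OddHC.ht (A △ OddHC.app C Y)
    rw [OddHC.ht_node]
    exact ih.trans (le_max_right _ _)

theorem ht_app_le' (X Y : BinaryTree Unit) : OddHC.ht X ≤ OddHC.ht (OddHC.app X Y) := by
  induction X with
  | nil => exact Nat.zero_le _
  | node _ A C _ ih =>
    change OddHC.ht (A △ C) ≤ OddHC.ht (A △ OddHC.app C Y)
    rw [OddHC.ht_node, OddHC.ht_node]
    exact max_le_max le_rfl ih

/-- the profile of a word -/
theorem prB_eq (hd : 1 ≤ d) (hm : d + 3 ≤ m) (hX : HC m X) (hY : HC m Y) (h0 : X ≠ .nil ∨ Y ≠ .nil) {f e : Bool}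
    (hf : f = true ↔ Y = .nil) (he : e = true ↔ X = .nil) {i : ℕ} (hi : i < 10) (hi0 : i ≠ 0) :
    (lt1 m (OddHC.fs (blk (pc (d + 1)) X Y i)), lt1 m (OddHC.ls (blk (pc (d + 1)) X Y i))) = prB f e i := by
  have an : ∀ t : BinaryTree Unit, OddHC.app .nil t = t := fun _ => rfl
  have lQ : ∀ A : BinaryTree Unit, OddHC.ls (A △ pc (d + 1)) = pc d := by
    intro A
    rw [ls_node _ (by rw [pc_succ]; exact nn' _ _), pc_succ, ls_single]
  have tn : lt1 m (BinaryTree.nil : BinaryTree Unit) = true := lt1_t (by rw [ht_nil0]; omega)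
  have tp : ∀ n, n + 1 < m → lt1 m (pc n) = true := fun n h => lt1_t (by rw [ht_pc]; exact h)
  have h1n : OddHC.ht (BinaryTree.nil △ pc (d + 1)) = d + 1 := by
    rw [OddHC.ht_node, ht_pc, ht_nil0]
    omega
  have hqn : ∀ {t : BinaryTree Unit}, OddHC.ht t ≤ OddHC.ht (pc d △ (.nil △ t)) := by
    intro t
    rw [OddHC.ht_node, OddHC.ht_node]
    omega
  unfold prB
  cases f with
  | true =>
    obtain rfl := hf.1 rfl
    have X0 : X ≠ .nil := h0.resolve_right (fun h => h rfl)
    have hx := hX.le X0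
    have f1 := lt1_f (hX.fs X0)
    have f2 := lt1_f (hX.ls X0)
    have f3 : lt1 m X = false := lt1_f (by omega)
    interval_cases i
    · exact absurd rfl hi0
    · simp only [blk, app_pc, fs_app X0, ls_app _ (nn' _ _), ls_node _ (nn' _ _), ls_single, f1, tn]
      rfl
    · have e1 : OddHC.ls (.nil △ OddHC.app X (.nil △ pc (d + 1))) = pc d := by
        rw [ls_node _ (app_ne' (nn' _ _)), ls_app _ (nn' _ _), lQ]
      simp only [blk, fs_node, e1, tn, tp d (by omega)]
      rfl
    · simp only [blk, an, fs_node, ls_single]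
      rw [lt1_f (t := OddHC.app X (.nil △ pc (d + 1))) (by have := ht_app_le' X (.nil △ pc (d + 1)); omega)]
      rfl
    · simp only [blk, app_pc, fs_node, ls_node _ X0, f2]
      rw [lt1_t (by rw [OddHC.ht_node, OddHC.ht_node, ht_pc, ht_nil0]; omega)]
      rfl
    · simp only [blk, fs_node, ls_node _ (nn' _ _), ls_node _ X0, f2]
      rw [tp _ (by omega)]
      rfl
    · simp only [blk, an, fs_node, ls_node _ (nn' _ _), ls_single, f3]
      rw [tp _ (by omega)]
      rfl
    · simp only [blk, app_pc, fs_node, ls_node _ (nn' _ _), ls_single]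
      rw [tp _ (by omega), lt1_f (by rw [OddHC.ht_node]; omega)]
      rfl
    · simp only [blk, an, app_pc, fs_node, ls_node _ (nn' _ _), ls_single, f3]
      rw [tp _ (by omega)]
      rfl
    · simp only [blk, an, fs_node, lQ]
      rw [tp _ (by omega), lt1_f (by rw [OddHC.ht_node]; omega)]
      rfl
  | false =>
    have Y0 : Y ≠ .nil := fun h => absurd (hf.2 h) (by simp)
    have hy := hY.le Y0
    have g1 := lt1_f (hY.fs Y0)
    have g2 := lt1_f (hY.ls Y0)
    have g3 : lt1 m Y = false := lt1_f (by omega)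
    have hX0 : e = false → X ≠ .nil := by
      intro g g1
      rw [he.2 g1] at g
      exact absurd g (by simp)
    interval_cases i
    · exact absurd rfl hi0
    · have e1 : OddHC.ls (OddHC.app X (.nil △ OddHC.app (pc (d + 1)) (.nil △ Y))) = OddHC.ls Y := by
        rw [ls_app _ (nn' _ _), ls_node _ (app_ne' (nn' _ _)), ls_app _ (nn' _ _), ls_node _ Y0]
      simp only [blk, e1, g2]
      cases e with
      | true =>
        rw [he.1 rfl]
        change (lt1 m .nil, false) = _
        rw [tn]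
        rfl
      | false =>
        rw [fs_app (hX0 rfl), lt1_f (hX.fs (hX0 rfl))]
        rfl
    · have e1 : OddHC.ls (Y △ OddHC.app X (.nil △ pc (d + 1))) = pc d := by
        rw [ls_node _ (app_ne' (nn' _ _)), ls_app _ (nn' _ _), lQ]
      simp only [blk, e1, fs_node, g3]
      rw [tp _ (by omega)]
      rfl
    · simp only [blk, ls_app _ (nn' _ _), ls_single, fs_app Y0, g1]
      cases e with
      | true =>
        rw [he.1 rfl, an, lt1_t (by rw [h1n]; omega)]
        rfl
      | false =>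
        rw [lt1_f (by have := ht_app_le' X (.nil △ pc (d + 1)); have := hX.le (hX0 rfl); omega)]
        rfl
    · simp only [blk, app_pc, fs_node]
      rw [lt1_f (by have := hqn (t := Y); omega)]
      cases e with
      | true =>
        rw [he.1 rfl, ls_single, lt1_f (by have := hqn (t := Y); omega)]
        rfl
      | false =>
        rw [ls_node _ (hX0 rfl), lt1_f (hX.ls (hX0 rfl))]
        rfl
    · simp only [blk, fs_node, ls_node _ (nn' _ _)]
      rw [tp _ (by omega)]
      cases e with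
      | true =>
        rw [he.1 rfl, ls_single, g3]
        rfl
      | false =>
        rw [ls_node _ (hX0 rfl), lt1_f (hX.ls (hX0 rfl))]
        rfl
    · simp only [blk, fs_app Y0, g1, ls_app _ (nn' _ _), ls_node _ (nn' _ _), ls_single]
      rw [tp _ (by omega)]
      rfl
    · simp only [blk, app_pc, fs_node, ls_node _ (nn' _ _), ls_single]
      rw [tp _ (by omega), lt1_f (by rw [OddHC.ht_node]; omega)]
      rfl
    · have e1 : OddHC.ls (OddHC.app (pc (d + 1)) (.nil △ OddHC.app Y (X △ .nil))) = X := by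
        rw [ls_app _ (nn' _ _), ls_node _ (app_ne' (nn' _ _)), ls_app _ (nn' _ _), ls_single]
      simp only [blk, e1]
      simp only [app_pc, fs_node]
      rw [tp _ (by omega)]
      cases e with
      | true =>
        rw [he.1 rfl, tn]
        rfl
      | false =>
        rw [lt1_f (by have := hX.le (hX0 rfl); omega)]
        rfl
    · simp only [blk, fs_node, lQ]
      rw [tp _ (by omega), lt1_f (by have := ht_app_le' Y (X △ .nil); omega)]
      rfl

/-- the pairs of words left, `q' = q + 1` -/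
def spM (f e f' e' : Bool) (i j : ℕ) : Prop :=
  (i = 0 ∧ ((f' = true ∧ j = 6) ∨ (f' = false ∧ j = 5) ∨ (f' = false ∧ e' = false ∧ j = 6))) ∨
  (f = true ∧ i = 4 ∧ ((f' = true ∧ (j = 7 ∨ j = 8)) ∨ (f' = false ∧ e' = false ∧ j = 8))) ∨
  (f = true ∧ i = 5 ∧ ((f' = true ∧ (j = 7 ∨ j = 8)) ∨ (f' = false ∧ e' = false ∧ j = 8))) ∨
  (f = false ∧ e = true ∧ i = 3 ∧ f' = false ∧ (j = 2 ∨ (e' = true ∧ j = 9))) ∨
  (f = false ∧ e = true ∧ i = 6 ∧ f' = false ∧ (j = 2 ∨ (e' = true ∧ j = 9))) ∨
  (f = false ∧ i = 5 ∧ f' = false ∧ j = 7) ∨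
  (f = true ∧ i = 6 ∧ ((f' = true ∧ j = 9) ∨ (f' = false ∧ e' = false ∧ j = 9))) ∨
  (f = false ∧ e = false ∧ i = 6 ∧ ((f' = true ∧ j = 9) ∨ (f' = false ∧ e' = false ∧ j = 9)))

instance (f e f' e' : Bool) (i j : ℕ) : Decidable (spM f e f' e' i j) := by unfold spM; infer_instance

theorem pairM1 : ∀ i < 10, ∀ j < 10, ∀ f e f' e' : Bool, cpU (kapB f e i) (kapB f' e' j) →
    (i = 0 ∨ j = 0 ∨ prB f e i = prB f' e' j) → spM f e f' e' i j := by
  decide

/-- the law from the classes -/
theorem blk_lawCM {q q' : ℕ} (hX : HC (q + 4) X) (hY : HC (q + 4) Y) (h0 : X ≠ .nil ∨ Y ≠ .nil)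
    (hX' : HC (q' + 3) X') (hY' : HC (q' + 3) Y') (hq1 : 1 ≤ q)
    (h0' : X' ≠ .nil ∨ Y' ≠ .nil) {f e f' e' : Bool} (hf : f = true ↔ Y = .nil)
    (he : e = true ↔ X = .nil) (hf' : f' = true ↔ Y' = .nil) (he' : e' = true ↔ X' = .nil)
    {i j : ℕ} (hi : i < 10) (hj : j < 10)
    (heq : blk (pc (q + 1)) X Y i = blk (pc (q' + 1)) X' Y' j)
    (hcl : (q' = q + 1 ∧ cpU (kapB f e i) (kapB f' e' j)) ∨ (q' = q + 2 ∧ cpV (kapB f e i) (kapB f' e' j))) :
    LawB q q' X Y X' Y' i j := by
  have nf : ∀ {e : Bool} {t : BinaryTree Unit}, (e = true ↔ t = .nil) → e = false → t ≠ .nil := by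
    intro e t h g g1
    rw [h.2 g1] at g
    exact absurd g (by simp)
  have nd : ∀ {A C A' C' : BinaryTree Unit}, A △ C = A' △ C' → A = A' ∧ C = C' :=
    fun h => ⟨congrArg OddHC.fs h, congrArg OddHC.tl h⟩
  have an : ∀ t : BinaryTree Unit, OddHC.app .nil t = t := fun _ => rfl
  have gq : OddHC.ht (pc (q + 1) △ .nil) + 1 < q + 4 := by
    change OddHC.ht (pc (q + 2)) + 1 < q + 4
    rw [ht_pc]
    omega
  rcases hcl with ⟨rfl, g⟩ | ⟨rfl, g⟩
  · have hX1' : HC (q + 4) X' := hX'
    have hY1' : HC (q + 4) Y' := hY'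
    have hsp : spM f e f' e' i j := by
      apply pairM1 i hi j hj f e f' e' g
      by_cases hi0 : i = 0
      · exact Or.inl hi0
      by_cases hj0 : j = 0
      · exact Or.inr (Or.inl hj0)
      right; right
      rw [← prB_eq (d := q) (m := q + 4) hq1 (by omega) hX hY h0 hf he hi hi0,
        ← prB_eq (d := q + 1) (m := q + 4) (by omega) (by omega) hX1' hY1' h0' hf' he' hj hj0, heq]
    clear g
    rcases hsp with ⟨rfl, g⟩ | ⟨g, rfl, g1⟩ | ⟨g, rfl, g1⟩ | ⟨g, g1, rfl, g2, g3⟩ | ⟨g, g1, rfl, g2, g3⟩ |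
      ⟨g, rfl, g1, rfl⟩ | ⟨g, rfl, g1⟩ | ⟨g, g1, rfl, g2⟩
    · rcases g with ⟨g, rfl⟩ | ⟨g, rfl⟩ | ⟨g, g1, rfl⟩
      · obtain rfl := hf'.1 g
        have X0' : X' ≠ .nil := h0'.resolve_right (fun h => h rfl)
        have h1 : OddHC.app X ((pc (q + 1) △ .nil) △ Y) =
            OddHC.app (X' △ .nil) ((pc (q + 1) △ .nil) △ .nil) := heq
        obtain ⟨a1, _, a2⟩ := hc_split gq gq hX (hX1'.node X0' (HC.nil _)) h1
        exact Or.inl ⟨rfl, a2, rfl, a1, Or.inl ⟨rfl, rfl⟩⟩
      · have Y0' := nf hf' g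
        have h1 : OddHC.app X ((pc (q + 1) △ .nil) △ Y) =
            OddHC.app .nil ((pc (q + 1) △ .nil) △ (Y' △ X')) := heq
        obtain ⟨a1, _, a2⟩ := hc_split gq gq hX (HC.nil _) h1
        exact Or.inr (Or.inr (Or.inl ⟨rfl, a1, Y0', a2, Or.inl ⟨rfl, rfl⟩⟩))
      · have Y0' := nf hf' g
        have X0' := nf he' g1
        have h1 : OddHC.app X ((pc (q + 1) △ .nil) △ Y) =
            OddHC.app (OddHC.app Y' (X' △ .nil)) ((pc (q + 1) △ .nil) △ .nil) := by
          rw [app_assoc']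
          exact heq
        obtain ⟨a1, _, a2⟩ := hc_split gq gq hX (hY1'.app (hX1'.node X0' (HC.nil _))) h1
        exact Or.inr (Or.inl ⟨rfl, a2, Y0', X0', a1, Or.inl ⟨rfl, rfl⟩⟩)
    · exfalso
      have h1 : OddHC.app (pc (q + 1)) (.nil △ .nil) = pc (q + 1) := by
        obtain rfl := hf.1 g
        rcases g1 with ⟨g1, rfl | rfl⟩ | ⟨g1, g2, rfl⟩ <;> exact congrArg OddHC.fs heq
      rw [app_pc] at h1
      have h2 := congrArg nc h1
      rw [pc_succ, nc_node, nc_node, nc_node, nc_nil] at h2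
      omega
    · obtain rfl := hf.1 g
      rcases g1 with ⟨g1, rfl | rfl⟩ | ⟨g1, g2, rfl⟩
      · exfalso
        have h1 : pc (q + 1) △ (.nil △ X) = pc (q + 1) △ ((Y' △ X') △ .nil) := heq
        have h2 := (nd (nd h1).2).1
        exact nn' _ _ h2.symm
      · obtain rfl := hf'.1 g1
        have h1 : pc (q + 1) △ (.nil △ X) = pc (q + 1) △ (.nil △ (X' △ .nil)) := heq
        exact Or.inl ⟨rfl, rfl, rfl, (nd (nd h1).2).2, Or.inr (Or.inl ⟨rfl, rfl⟩)⟩
      · have Y0' := nf hf' g1
        have X0' := nf he' g2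
        have h1 : pc (q + 1) △ (.nil △ X) = pc (q + 1) △ (.nil △ OddHC.app Y' (X' △ .nil)) := heq
        exact Or.inr (Or.inl ⟨rfl, rfl, Y0', X0', (nd (nd h1).2).2, Or.inr (Or.inl ⟨rfl, rfl⟩)⟩)
    · exfalso
      have Y0 := nf hf g
      have Y0' := nf hf' g2
      obtain rfl := he.1 g1
      have lQ : ∀ A : BinaryTree Unit, OddHC.ls (A △ pc (q + 1 + 1)) = pc (q + 1) := by
        intro A
        rw [ls_node _ (by rw [pc_succ]; exact nn' _ _), pc_succ, ls_single]
      have h1 : OddHC.ls (OddHC.app Y ((.nil △ pc (q + 1)) △ .nil)) = pc (q + 1) := by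
        rcases g3 with rfl | ⟨g3, rfl⟩
        · have h2 : OddHC.app Y ((.nil △ pc (q + 1)) △ .nil) = Y' △ OddHC.app X' (.nil △ pc (q + 1 + 1)) := heq
          rw [h2, ls_node _ (app_ne' (nn' _ _)), ls_app _ (nn' _ _), lQ]
        · have h2 : OddHC.app Y ((.nil △ pc (q + 1)) △ .nil) = OddHC.app Y' (X' △ .nil) △ pc (q + 1 + 1) := heq
          rw [h2, lQ]
      rw [ls_app _ (nn' _ _), ls_single] at h1
      have h2 := congrArg nc h1
      rw [pc_succ, nc_node, nc_node, nc_nil] at h2
      omega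
    · have Y0 := nf hf g
      have Y0' := nf hf' g2
      obtain rfl := he.1 g1
      rcases g3 with rfl | ⟨g3, rfl⟩
      · have h1 : OddHC.app Y (.nil △ (pc (q + 1) △ .nil)) =
            OddHC.app (Y' △ X') (.nil △ (pc (q + 1) △ .nil)) := heq
        exact Or.inr (Or.inr (Or.inl ⟨rfl, rfl, Y0', app_cancel_right _ h1, Or.inr (Or.inr ⟨rfl, rfl⟩)⟩))
      · exfalso
        have h1 : OddHC.app Y (.nil △ (pc (q + 1) △ .nil)) =
            OddHC.app Y' (X' △ .nil) △ pc (q + 1 + 1) := heq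
        have h2 := congrArg nc h1
        have h3 := nc_pos Y0
        rw [nc_app, nc_node, nc_node, nc_node, pc_succ, nc_node, nc_nil] at h2
        omega
    · have Y0' := nf hf' g1
      have h1 : pc (q + 1) △ (Y △ X) = pc (q + 1) △ ((Y' △ X') △ .nil) := heq
      have h2 := nd (nd h1).2
      exact Or.inr (Or.inr (Or.inl ⟨rfl, h2.2, Y0', h2.1, Or.inr (Or.inl ⟨rfl, rfl⟩)⟩))
    · obtain rfl := hf.1 g
      rcases g1 with ⟨g1, rfl⟩ | ⟨g1, g2, rfl⟩
      · obtain rfl := hf'.1 g1
        have h1 : X △ (pc (q + 1) △ .nil) = (X' △ .nil) △ pc (q + 1 + 1) := heq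
        exact Or.inl ⟨rfl, rfl, rfl, (nd h1).1, Or.inr (Or.inr ⟨rfl, rfl⟩)⟩
      · have Y0' := nf hf' g1
        have X0' := nf he' g2
        have h1 : X △ (pc (q + 1) △ .nil) = OddHC.app Y' (X' △ .nil) △ pc (q + 1 + 1) := heq
        exact Or.inr (Or.inl ⟨rfl, rfl, Y0', X0', (nd h1).1, Or.inr (Or.inr ⟨rfl, rfl⟩)⟩)
    · exfalso
      have Y0 := nf hf g
      have h1 : nc (OddHC.app Y (X △ (pc (q + 1) △ .nil))) = 2 := by
        rcases g2 with ⟨g2, rfl⟩ | ⟨g2, g3, rfl⟩
        · have h2 : OddHC.app Y (X △ (pc (q + 1) △ .nil)) = OddHC.app Y' (X' △ .nil) △ pc (q + 1 + 1) := heq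
          rw [h2, nc_node, pc_succ, nc_node, nc_nil]
        · have h2 : OddHC.app Y (X △ (pc (q + 1) △ .nil)) = OddHC.app Y' (X' △ .nil) △ pc (q + 1 + 1) := heq
          rw [h2, nc_node, pc_succ, nc_node, nc_nil]
      rw [nc_app, nc_node, nc_node, nc_nil] at h1
      have h3 := nc_pos Y0
      omega
  · -- `q' = q + 2`
    have hX1' : HC (q + 4) X' := hX'.mono (by omega)
    have hY1' : HC (q + 4) Y' := hY'.mono (by omega)
    have hsp : spV f' e' i j := pairU2 i hi j hj f e f' e' g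
    clear g
    obtain ⟨rfl, g⟩ := hsp
    rcases g with ⟨rfl, g⟩ | ⟨rfl, g⟩
    · by_cases g1 : f' = true
      · obtain rfl := hf'.1 g1
        have X0' : X' ≠ .nil := h0'.resolve_right (fun h => h rfl)
        have h1 : OddHC.app X ((pc (q + 1) △ .nil) △ Y) =
            OddHC.app ((X' △ .nil) △ .nil) ((pc (q + 1) △ .nil) △ .nil) := heq
        obtain ⟨a1, _, a2⟩ := hc_split gq gq hX
          ((hX1'.node X0' (HC.nil _)).node (nn' _ _) (HC.nil _)) h1
        exact Or.inr (Or.inr (Or.inr (Or.inl ⟨rfl, a2, rfl, a1, rfl, rfl⟩)))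
      · have g2 : e' = false := by
          rcases g with g | g
          · exact absurd g g1
          · exact g
        have Y0' : Y' ≠ .nil := fun h => g1 (hf'.2 h)
        have X0' := nf he' g2
        have h1 : OddHC.app X ((pc (q + 1) △ .nil) △ Y) =
            OddHC.app (OddHC.app Y' (X' △ .nil) △ .nil) ((pc (q + 1) △ .nil) △ .nil) := heq
        obtain ⟨a1, _, a2⟩ := hc_split gq gq hX
          ((hY1'.app (hX1'.node X0' (HC.nil _))).node (app_ne' (nn' _ _)) (HC.nil _)) h1
        exact Or.inr (Or.inr (Or.inr (Or.inr (Or.inl ⟨rfl, a2, Y0', X0', a1, rfl, rfl⟩))))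
    · have Y0' := nf hf' g
      have h1 : OddHC.app X ((pc (q + 1) △ .nil) △ Y) =
          OddHC.app .nil ((pc (q + 1) △ .nil) △ ((Y' △ X') △ .nil)) := heq
      obtain ⟨a1, _, a2⟩ := hc_split gq gq hX (HC.nil _) h1
      exact Or.inr (Or.inr (Or.inr (Or.inr (Or.inr ⟨rfl, a1, Y0', a2, rfl, rfl⟩))))

/-- **THE LAW WITH MARKERS**, `q ≥ 1` -/
theorem blk_lawM {q q' : ℕ} (hq : 1 ≤ q) (hqq : q < q')
    (cX : CM (q + 4) X MX HX) (cY : CM (q + 4) Y MY HY) (hX : HC (q + 4) X) (hY : HC (q + 4) Y)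
    (h0 : X ≠ .nil ∨ Y ≠ .nil)
    (cX' : CM (q' + 3) X' MX' HX') (cY' : CM (q' + 3) Y' MY' HY') (hX' : HC (q' + 3) X')
    (hY' : HC (q' + 3) Y') (h0' : X' ≠ .nil ∨ Y' ≠ .nil) (hM : MX + MY = MX' + MY')
    {i j : ℕ} (hi : i < 10) (hj : j < 10)
    (heq : blk (pc (q + 1)) X Y i = blk (pc (q' + 1)) X' Y' j) : LawB q q' X Y X' Y' i j := by
  obtain ⟨e, he⟩ := exB X
  obtain ⟨f, hf⟩ := exB Y
  obtain ⟨e', he'⟩ := exB X'
  obtain ⟨f', hf'⟩ := exB Y'
  obtain ⟨H, c1, c2⟩ := contM (d := q) (m := q + 4) (by omega) cX cY h0 hf he hi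
  obtain ⟨H', c1', c2'⟩ := contM (d := q') (m := q' + 3) le_rfl cX' cY' h0' hf' he' hj
  have hE : smU q (kapB f e i) + H = smU q' (kapB f' e' j) + H' := by
    have h1 : smU q (kapB f e i) + (MX + MY) + H = smU q' (kapB f' e' j) + (MX' + MY') + H' := by
      rw [← c1, heq, c1']
    rw [← hM] at h1
    have h2 : (MX + MY) + (smU q (kapB f e i) + H) = (MX + MY) + (smU q' (kapB f' e' j) + H') := by
      calc (MX + MY) + (smU q (kapB f e i) + H) = smU q (kapB f e i) + (MX + MY) + H := by abel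
        _ = smU q' (kapB f' e' j) + (MX + MY) + H' := h1
        _ = _ := by abel
    exact add_left_cancel h2
  exact blk_lawCM hX hY h0 hX' hY' hq h0' hf he hf' he' hi hj heq
    (sepU hq hqq (kapB_le f e i) (kapB_le f' e' j) c2 c2' hE)

end BwL

end Pool.OddHC
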