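import Pool.Agent.Work.MP_8f87b2_h55.BwLaw
import Pool.Agent.Work.MP_8f87b2_h69w.TyBw
import Pool.Agent.Work.MP_8f87b2_h88.Kids

/-!
MP_8f87b2_co: the law for two right windows with the same markers (B-windows of the same marker `c`).
`Mk m M R B S`: markers `M` inside of heavy top components of `R`, `S`; `B` without marker; heavy parts at least `m`.
`W_lawM`: child `Mk (q + 4)`, parent `Mk (q' + 3)`, the same `M`: the table `I0.LawW`. `kidM`: the child is the T-cycle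
of the word 6, 16, 9, 19 of the parent. `NodeBw.mkM`, `NodeBw.mkU`: B-windows.
-/

set_option autoImplicit false

namespace Pool.OddHC

open Finset Equiv BinaryTree Multiset Pool.Agent.Work.MP_8f87b2_co

namespace BwL

open I0

variable {k q q' m : ℕ} {R B S R' B' S' : BinaryTree Unit}

/-- a window with the markers `M` inside of heavy top components -/
structure Mk (m : ℕ) (M : Multiset ℕ) (R B S : BinaryTree Unit) : Prop where
  cR : ∃ H, CM m R M H
  cB : ∃ H, CM m B 0 H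
  cS : ∃ H, CM m S M H
  hR : HC m R
  hB : HC m B
  hS : HC m S

theorem CM.nil (m : ℕ) : CM m .nil 0 0 where
  eq := by rw [cont_nil]; rfl
  small := fun x hx => absurd hx (Multiset.notMem_zero _)
  heavy := fun x hx => absurd hx (Multiset.notMem_zero _)
  ne := fun h => absurd rfl h

/-- **THE LAW** for two windows with the same markers -/
theorem W_lawM (hq : 1 ≤ q) (hqq : q < q') {M : Multiset ℕ} (hs : Tsq.sq R = (S, B)) (R0 : R ≠ .nil)
    (h : Mk (q + 4) M R B S) (hs' : Tsq.sq R' = (S', B')) (R0' : R' ≠ .nil) (h' : Mk (q' + 3) M R' B' S')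
    {i j : ℕ} (hi : i < 20) (hj : j < 20)
    (heq : H1.W R (H1.ch (q + 1)) B S i = H1.W R' (H1.ch (q' + 1)) B' S' j) :
    LawW q q' R R' B' S' i j := by
  have S0 := sq_ne R0 hs
  have S0' := sq_ne R0' hs'
  obtain ⟨HR, cR⟩ := h.cR
  obtain ⟨HB, cB⟩ := h.cB
  obtain ⟨HS, cS⟩ := h.cS
  obtain ⟨HR', cR'⟩ := h'.cR
  obtain ⟨HB', cB'⟩ := h'.cB
  obtain ⟨HS', cS'⟩ := h'.cS
  rw [H1.ch_eq, H1.ch_eq] at heq
  apply W_lawB hs R0 hs' R0' _ hi hj heq
  intro X Y X' Y' g g' i hi j hj e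
  rcases g with ⟨rfl, rfl⟩ | ⟨rfl, rfl⟩ <;> rcases g' with ⟨rfl, rfl⟩ | ⟨rfl, rfl⟩
  · exact blk_lawM hq hqq cR (CM.nil _) h.hR (HC.nil _) (Or.inl R0) cR' (CM.nil _) h'.hR (HC.nil _)
      (Or.inl R0') rfl hi hj e
  · exact blk_lawM hq hqq cR (CM.nil _) h.hR (HC.nil _) (Or.inl R0) cB' cS' h'.hB h'.hS
      (Or.inr S0') (by rw [zero_add, add_zero]) hi hj e
  · exact blk_lawM hq hqq cB cS h.hB h.hS (Or.inr S0) cR' (CM.nil _) h'.hR (HC.nil _)
      (Or.inl R0') (by rw [zero_add, add_zero]) hi hj e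
  · exact blk_lawM hq hqq cB cS h.hB h.hS (Or.inr S0) cB' cS' h'.hB h'.hS
      (Or.inr S0') rfl hi hj e

/-- the child is the T-cycle of the word 6, 16, 9, 19 of the parent -/
theorem kid_of (hD : H1.Dat q R B S) (hk : R.numNodes + q + 3 = k)
    (hD' : H1.Dat q' R' B' S') (hk' : R'.numNodes + q' + 3 = k) (w0 w0' : X k) {i j : ℕ}
    (hL : LawW q q' R R' B' S' i j) :
    (q' = q + 1 ∧ R = R' △ .nil ∧ ((i = 0 ∧ j = 6) ∨ (i = 5 ∧ j = 8) ∨ (i = 6 ∧ j = 9) ∨
      (i = 10 ∧ j = 15) ∨ (i = 15 ∧ j = 17) ∨ (i = 16 ∧ j = 12)) ∧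
      H1.wX R B S q w0 0 = H1.wX R' B' S' q' w0' 6) ∨
    (q' = q + 1 ∧ B' ≠ .nil ∧ R = app S' (B' △ .nil) ∧
      ((i = 0 ∧ j = 16) ∨ (i = 5 ∧ j = 18) ∨ (i = 6 ∧ j = 19)) ∧
      H1.wX R B S q w0 0 = H1.wX R' B' S' q' w0' 16) ∨
    (q' = q + 2 ∧ R = (R' △ .nil) △ .nil ∧ ((i = 0 ∧ j = 9) ∨ (i = 10 ∧ j = 17)) ∧
      H1.wX R B S q w0 0 = H1.wX R' B' S' q' w0' 9) ∨
    (q' = q + 2 ∧ B' ≠ .nil ∧ R = app S' (B' △ .nil) △ .nil ∧ i = 0 ∧ j = 19 ∧
      H1.wX R B S q w0 0 = H1.wX R' B' S' q' w0' 19) := by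
  have h0 := H1.wX_eq hD hk w0 (i := 0) (by norm_num)
  rcases hL with ⟨a, b, c⟩ | ⟨a, b, c, d⟩ | ⟨a, b, c⟩ | ⟨a, b, c, d1, d2⟩
  · left
    refine ⟨a, b, c, ?_⟩
    apply Subtype.ext
    rw [h0, H1.wX_eq hD' hk' w0' (by norm_num), b, a]
    rfl
  · right; left
    refine ⟨a, b, c, d, ?_⟩
    apply Subtype.ext
    rw [h0, H1.wX_eq hD' hk' w0' (by norm_num), c, a]
    change app (app S' (B' △ .nil)) _ = _
    rw [app_assoc']
    rfl
  · right; right; left
    refine ⟨a, b, c, ?_⟩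
    apply Subtype.ext
    rw [h0, H1.wX_eq hD' hk' w0' (by norm_num), b, a]
    rfl
  · right; right; right
    refine ⟨a, b, c, d1, d2, ?_⟩
    apply Subtype.ext
    rw [h0, H1.wX_eq hD' hk' w0' (by norm_num), c, a]
    rfl

theorem kidM (hq : 1 ≤ q) (hqq : q < q') {M : Multiset ℕ} (hD : H1.Dat q R B S)
    (hk : R.numNodes + q + 3 = k) (h : Mk (q + 4) M R B S)
    (hD' : H1.Dat q' R' B' S') (hk' : R'.numNodes + q' + 3 = k) (h' : Mk (q' + 3) M R' B' S')
    (w0 w0' : X k) {i j : ℕ} (hi : i < 20) (hj : j < 20)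
    (e : H1.wX R B S q w0 i = H1.wX R' B' S' q' w0' j) :
    (q' = q + 1 ∧ R = R' △ .nil ∧ ((i = 0 ∧ j = 6) ∨ (i = 5 ∧ j = 8) ∨ (i = 6 ∧ j = 9) ∨
      (i = 10 ∧ j = 15) ∨ (i = 15 ∧ j = 17) ∨ (i = 16 ∧ j = 12)) ∧
      H1.wX R B S q w0 0 = H1.wX R' B' S' q' w0' 6) ∨
    (q' = q + 1 ∧ B' ≠ .nil ∧ R = app S' (B' △ .nil) ∧
      ((i = 0 ∧ j = 16) ∨ (i = 5 ∧ j = 18) ∨ (i = 6 ∧ j = 19)) ∧
      H1.wX R B S q w0 0 = H1.wX R' B' S' q' w0' 16) ∨
    (q' = q + 2 ∧ R = (R' △ .nil) △ .nil ∧ ((i = 0 ∧ j = 9) ∨ (i = 10 ∧ j = 17)) ∧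
      H1.wX R B S q w0 0 = H1.wX R' B' S' q' w0' 9) ∨
    (q' = q + 2 ∧ B' ≠ .nil ∧ R = app S' (B' △ .nil) △ .nil ∧ i = 0 ∧ j = 19 ∧
      H1.wX R B S q w0 0 = H1.wX R' B' S' q' w0' 19) := by
  have e1 := congrArg Subtype.val e
  rw [H1.wX_eq hD hk w0 hi, H1.wX_eq hD' hk' w0' hj] at e1
  exact kid_of hD hk hD' hk' w0 w0' (W_lawM hq hqq hD.sq hD.ne h hD'.sq hD'.ne h' hi hj e1)

/-! ### B-windows -/

theorem HC.of_cont : ∀ {X : BinaryTree Unit}, (∀ x ∈ OddHC.cont X, m ≤ x) → HC m X := by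
  intro X
  induction X with
  | nil => intro _; trivial
  | node _ A C _ ih =>
    intro h
    refine ⟨?_, ih fun x hx => h x (by rw [cont_node]; exact Multiset.mem_add.2 (Or.inr hx))⟩
    apply h
    rw [cont_node]
    apply Multiset.mem_add.2
    left
    unfold raise
    rw [OddHC.ht_eq]
    exact Multiset.mem_cons_self _ _

/-- a top component of height exactly `m` is a part `m` -/
theorem HC.up : ∀ {X : BinaryTree Unit}, HC m X → m ∉ OddHC.cont X → HC (m + 1) X := by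
  intro X
  induction X with
  | nil => intro _ _; trivial
  | node _ A C _ ih =>
    intro h hn
    rw [cont_node] at hn
    have h1 : OddHC.ht A + 1 ≠ m := by
      intro g
      apply hn
      apply Multiset.mem_add.2
      left
      unfold raise
      rw [← OddHC.ht_eq, g]
      exact Multiset.mem_cons_self _ _
    have h2 := h.1
    exact ⟨by omega, ih h.2 fun g => hn (Multiset.mem_add.2 (Or.inr g))⟩

/-- one marker -/
theorem CM.one {c : ℕ} {X : BinaryTree Unit} (h1 : (OddHC.cont X).count c = 1)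
    (h2 : ∀ x ∈ OddHC.cont X, x = c ∨ m ≤ x) (hc : c < m) (ht : m ≤ OddHC.ht X) :
    CM m X {c} ((OddHC.cont X).erase c) where
  eq := by
    rw [Multiset.singleton_add]
    exact (Multiset.cons_erase (Multiset.one_le_count_iff_mem.1 h1.ge)).symm
  small := by
    intro x hx
    rw [Multiset.mem_singleton] at hx
    omega
  heavy := by
    intro x hx
    rcases h2 x (Multiset.mem_of_mem_erase hx) with h3 | h3
    · exfalso
      subst h3
      have h4 := Multiset.one_le_count_iff_mem.2 hx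
      rw [Multiset.count_erase_self, h1] at h4
      omega
    · exact h3
  ne := by
    intro _ h0
    have h3 : OddHC.cont X = {c} := by
      have := Multiset.cons_erase (Multiset.one_le_count_iff_mem.1 h1.ge)
      rw [h0] at this
      exact this.symm
    rw [OddHC.ht_eq, h3, Multiset.sup_singleton] at ht
    omega

/-- no marker -/
theorem CM.none {X : BinaryTree Unit} (h2 : ∀ x ∈ OddHC.cont X, m ≤ x) : CM m X 0 (OddHC.cont X) where
  eq := (zero_add _).symm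
  small := fun x hx => absurd hx (Multiset.notMem_zero _)
  heavy := h2
  ne := cont_ne

end BwL

open BwL

namespace NodeBw

variable {k c q : ℕ} {R B S : BinaryTree Unit}

/-- the height of `S` -/
theorem htS (h : NodeBw k c q R B S) : q + 3 ≤ ht S := by
  have h1 : R ≠ .nil := h.dat.ne
  have h2 := (Tsq.ht_sq h1).1
  rw [h.sq] at h2
  have h3 := h.top
  change Tsq.ht S = Tsq.ht R at h2
  rw [H1.ht_eq, H1.ht_eq] at h2
  omega

/-- a B-window as a window with the marker `c` -/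
theorem mkM (h : NodeBw k c q R B S) (hR : HC (q + 3) R) (hS : HC (q + 3) S) :
    Mk (q + 3) {c} R B S where
  cR := ⟨_, CM.one h.one h.part h.lt h.top⟩
  cB := ⟨_, CM.none h.bare⟩
  cS := ⟨_, CM.one h.cS h.partS h.lt h.htS⟩
  hR := hR
  hB := HC.of_cont h.bare
  hS := hS

/-- the same, the nest `q + 3` unique -/
theorem mkU (h : NodeBw k c q R B S) (hu : q + 3 ∉ cont R) (hR : HC (q + 3) R) (hS : HC (q + 3) S) :
    Mk (q + 4) {c} R B S := by
  have hp : ∀ x ∈ cont R, x = c ∨ q + 4 ≤ x := by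
    intro x hx
    rcases h.part x hx with h1 | h1
    · exact Or.inl h1
    · right
      rcases Nat.lt_or_ge x (q + 4) with h2 | h2
      · exfalso
        apply hu
        have : x = q + 3 := by omega
        rw [← this]
        exact hx
      · exact h2
  have hS' : ∀ x ∈ cont S, x ∈ cont R := fun x hx => by
    rw [← h.eq]
    exact Multiset.mem_add.2 (Or.inr hx)
  have hB' : ∀ x ∈ cont B, x ∈ cont R := fun x hx => by
    rw [← h.eq]
    exact Multiset.mem_add.2 (Or.inl hx)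
  have hl := h.lt
  have hb : ∀ x ∈ cont B, q + 4 ≤ x := by
    intro x hx
    have h1 := h.bare x hx
    have h2 : x ≠ q + 3 := fun g => hu (g ▸ hB' x hx)
    omega
  have tR : q + 4 ≤ ht R := (HC.up hR hu).le h.dat.ne
  have tS : q + 4 ≤ ht S := by
    have h1 : S ≠ .nil := by
      intro g
      have := h.htS
      rw [g] at this
      change q + 3 ≤ 0 at this
      omega
    exact (HC.up hS fun g => hu (hS' _ g)).le h1
  exact {
    cR := ⟨_, CM.one h.one hp (by omega) tR⟩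
    cB := ⟨_, CM.none hb⟩
    cS := ⟨_, CM.one h.cS (fun x hx => hp x (hS' x hx)) (by omega) tS⟩
    hR := HC.up hR hu
    hB := HC.of_cont hb
    hS := HC.up hS fun g => hu (hS' _ g) }

end NodeBw

end Pool.OddHC
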