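import Pool.Agent.Work.MP_8f87b2_h55.BwLaw2

/-!
MP_8f87b2_co: codes of the first and the last component of the words of a block, relative to a threshold `m`.
`cd m t`: `ht t + 1` if this is smaller than `m` (light component), else `m +` number of parts 1 of `t`.
-/

set_option autoImplicit false

namespace Pool.OddHC

open Finset Equiv BinaryTree Multiset Pool.Agent.Work.MP_8f87b2_co

namespace BwL

open I0

/-- number of parts 1 -/
def c1 (t : BinaryTree Unit) : ℕ := (OddHC.cont t).count 1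

theorem c1_nil : c1 .nil = 0 := by
  unfold c1
  rw [cont_nil]
  rfl

theorem c1_app (X Y : BinaryTree Unit) : c1 (OddHC.app X Y) = c1 X + c1 Y := by
  unfold c1
  rw [cont_app, Multiset.count_add]

theorem c1_node {X : BinaryTree Unit} (h : 2 ≤ OddHC.ht X) (Y : BinaryTree Unit) : c1 (X △ Y) = c1 X + c1 Y := by
  unfold c1
  rw [OddHC.cont_node, Multiset.count_add, H1.raise_one (by rw [← OddHC.ht_eq]; exact h)]

theorem c1_node0 (Y : BinaryTree Unit) : c1 (.nil △ Y) = 1 + c1 Y := by
  unfold c1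
  rw [OddHC.cont_node, cont_nil, raise_zero, Multiset.count_add]
  rfl

theorem c1_pcn {d : ℕ} (hd : 1 ≤ d) (Y : BinaryTree Unit) : c1 (pc d △ Y) = c1 Y := by
  unfold c1
  rw [OddHC.cont_node, raise_pc, Multiset.count_add, Multiset.count_singleton, if_neg (by omega), zero_add]

theorem c1_pc {d : ℕ} (hd : 2 ≤ d) : c1 (pc d) = 0 := by
  obtain ⟨e, rfl⟩ : ∃ e, d = e + 1 := ⟨d - 1, by omega⟩
  rw [pc_succ, c1_pcn (by omega), c1_nil]

theorem c1_fs {X : BinaryTree Unit} (h : 2 ≤ OddHC.ht (OddHC.fs X)) (h1 : c1 X = 0) : c1 (OddHC.fs X) = 0 := by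
  cases X with
  | nil => exact c1_nil
  | node _ A C =>
    have h2 : c1 (A △ C) = c1 A + c1 C := c1_node h C
    have h3 : c1 (A △ C) = 0 := h1
    change c1 A = 0
    omega

theorem c1_ls : ∀ {X : BinaryTree Unit}, 2 ≤ OddHC.ht (OddHC.ls X) → c1 X = 0 → c1 (OddHC.ls X) = 0 := by
  intro X
  induction X with
  | nil => intro _ _; exact c1_nil
  | node _ A C _ ih =>
    intro h h1
    by_cases hC : C = .nil
    · subst hC
      exact c1_fs (X := A △ .nil) h h1
    · rw [ls_node _ hC] at h ⊢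
      apply ih h
      have h3 : (OddHC.cont (A △ C)).count 1 = 0 := h1
      rw [OddHC.cont_node, Multiset.count_add] at h3
      unfold c1
      omega

/-- the code of a component with inside `t` -/
def cd (m : ℕ) (t : BinaryTree Unit) : ℕ := if OddHC.ht t + 1 < m then OddHC.ht t + 1 else m + c1 t

theorem cd_lt {m : ℕ} {t : BinaryTree Unit} (h : OddHC.ht t + 1 < m) : cd m t = OddHC.ht t + 1 := if_pos h

theorem cd_ge {m n : ℕ} {t : BinaryTree Unit} (h : m ≤ OddHC.ht t + 1) (h1 : c1 t = n) : cd m t = m + n := by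
  unfold cd
  rw [if_neg (by omega), h1]

/-- the value of a code: `0` heavy without 1, `5` heavy with one 1, `1` = `()`, `2` = `Q`, `3` = `(Q)`, `4` = `(Q ())`. -/
def vl (d m : ℕ) : ℕ → ℕ
  | 0 => m
  | 1 => 1
  | 2 => if d + 1 < m then d + 1 else m
  | 3 => if d + 2 < m then d + 2 else m
  | 4 => if d + 2 < m then d + 2 else m + 1
  | _ => m + 1

def cF : ℕ → ℕ × ℕ
  | 1 => (0, 1)
  | 2 => (1, 2)
  | 3 => (5, 5)
  | 4 => (4, 0)
  | 5 => (3, 0)
  | 6 => (0, 3)
  | 7 => (2, 5)
  | 8 => (2, 0)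
  | 9 => (0, 2)
  | _ => (0, 0)

def cI (e : Bool) (u : ℕ) : ℕ → ℕ × ℕ
  | 1 => (if e then 1 else 0, u)
  | 2 => (0, 2)
  | 3 => (0, if e then 4 else 5)
  | 4 => (5, if e then 5 else 0)
  | 5 => (3, 0)
  | 6 => (0, 3)
  | 7 => (2, 0)
  | 8 => (2, if e then 1 else 0)
  | 9 => (if e then 5 else 0, 2)
  | _ => (0, u)

/-- the table of codes (`u` = code of the last component of `Y`) -/
def cB (f e : Bool) (u i : ℕ) : ℕ × ℕ := if f then cF i else cI e u i

variable {d m : ℕ} {X Y X' Y' : BinaryTree Unit}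

/-- the codes of a word of a block -/
theorem cB_eq (hd : 1 ≤ d) (h3 : 3 ≤ m) (hm : m ≤ d + 3) (hX : HC m X) {u : ℕ}
    (fY : Y ≠ .nil → m ≤ OddHC.ht (OddHC.fs Y) + 1) (lY : Y ≠ .nil → cd m (OddHC.ls Y) = vl d m u)
    (kX : c1 X = 0) (kY : c1 Y = 0)
    (h0 : X ≠ .nil ∨ Y ≠ .nil) {f e : Bool}
    (hf : f = true ↔ Y = .nil) (he : e = true ↔ X = .nil) {i : ℕ} (hi : i < 10) :
    (cd m (OddHC.fs (blk (pc (d + 1)) X Y i)), cd m (OddHC.ls (blk (pc (d + 1)) X Y i))) =
      (vl d m (cB f e u i).1, vl d m (cB f e u i).2) := by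
  have an : ∀ t : BinaryTree Unit, OddHC.app .nil t = t := fun _ => rfl
  have lQ : ∀ A : BinaryTree Unit, OddHC.ls (A △ pc (d + 1)) = pc d := by
    intro A
    rw [ls_node _ (by rw [pc_succ]; exact nn' _ _), pc_succ, ls_single]
  have tn : cd m (BinaryTree.nil : BinaryTree Unit) = vl d m 1 := cd_lt (by rw [ht_nil0]; omega)
  have tQ : cd m (pc d) = vl d m 2 := by
    by_cases h : d + 1 < m
    · rw [cd_lt (by rw [ht_pc]; exact h), ht_pc]
      exact (if_pos h).symm
    · rw [cd_ge (by rw [ht_pc]; omega) (c1_pc (by omega))]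
      exact (if_neg h).symm
  have tP : cd m (pc (d + 1)) = vl d m 3 := by
    by_cases h : d + 2 < m
    · rw [cd_lt (by rw [ht_pc]; exact h), ht_pc]
      exact (if_pos h).symm
    · rw [cd_ge (by rw [ht_pc]; omega) (c1_pc (by omega))]
      exact (if_neg h).symm
  have tR : ∀ {t : BinaryTree Unit}, OddHC.ht t = d + 1 → c1 t = 1 → cd m t = vl d m 4 := by
    intro t ht1 hc
    by_cases h : d + 2 < m
    · rw [cd_lt (by rw [ht1]; exact h), ht1]
      exact (if_pos h).symm
    · rw [cd_ge (by rw [ht1]; omega) hc]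
      exact (if_neg h).symm
  have t0 : ∀ {t : BinaryTree Unit}, m ≤ OddHC.ht t + 1 → c1 t = 0 → cd m t = vl d m 0 := fun h h1 => cd_ge h h1
  have t5 : ∀ {t : BinaryTree Unit}, m ≤ OddHC.ht t + 1 → c1 t = 1 → cd m t = vl d m 5 := fun h h1 => cd_ge h h1
  have tL : cd m (pc (d + 1) △ .nil) = vl d m 0 := by
    change cd m (pc (d + 2)) = _
    exact t0 (by rw [ht_pc]; omega) (c1_pc (by omega))
  have hqn : ∀ {t : BinaryTree Unit}, OddHC.ht t ≤ OddHC.ht (pc d △ (.nil △ t)) := by
    intro t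
    rw [OddHC.ht_node, OddHC.ht_node]
    omega
  have hQn : OddHC.ht (BinaryTree.nil △ pc (d + 1)) = d + 1 := by
    rw [OddHC.ht_node, ht_pc, ht_nil0]
    omega
  have hQm : OddHC.ht (pc d △ (BinaryTree.nil △ .nil)) = d + 1 := by
    rw [OddHC.ht_node, OddHC.ht_node, ht_pc, ht_nil0]
    omega
  have k1 : c1 (BinaryTree.nil △ pc (d + 1)) = 1 := by rw [c1_node0, c1_pc (by omega)]
  have k2 : ∀ t : BinaryTree Unit, c1 t = 0 → c1 (pc d △ (BinaryTree.nil △ t)) = 1 := by
    intro t ht
    rw [c1_pcn hd, c1_node0, ht]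
  unfold cB
  cases f with
  | true =>
    obtain rfl := hf.1 rfl
    have X0 : X ≠ .nil := h0.resolve_right (fun h => h rfl)
    have hx := hX.le X0
    have x2 : 2 ≤ OddHC.ht X := by omega
    have f1 : cd m (OddHC.fs X) = vl d m 0 :=
      t0 (hX.fs X0) (c1_fs (by have := hX.fs X0; omega) kX)
    have f2 : cd m (OddHC.ls X) = vl d m 0 :=
      t0 (hX.ls X0) (c1_ls (by have := hX.ls X0; omega) kX)
    have f3 : cd m X = vl d m 0 := t0 (by omega) kX
    interval_cases i
    · simp only [blk, fs_app X0, ls_app _ (nn' _ _), ls_single, f1, tL]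
      rfl
    · simp only [blk, app_pc, fs_app X0, ls_app _ (nn' _ _), ls_node _ (nn' _ _), ls_single, f1, tn]
      rfl
    · have e1 : OddHC.ls (.nil △ OddHC.app X (.nil △ pc (d + 1))) = pc d := by
        rw [ls_node _ (app_ne' (nn' _ _)), ls_app _ (nn' _ _), lQ]
      simp only [blk, fs_node, e1, tn, tQ]
      rfl
    · simp only [blk, an, fs_node, ls_single]
      have e1 : cd m (OddHC.app X (.nil △ pc (d + 1))) = vl d m 5 := by
        apply t5
        · have := ht_app_le' X (.nil △ pc (d + 1))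
          omega
        · rw [c1_app, kX, k1]
      rw [e1]
      rfl
    · simp only [blk, app_pc, fs_node, ls_node _ X0, f2]
      rw [tR hQm (k2 _ c1_nil)]
      rfl
    · simp only [blk, fs_node, ls_node _ (nn' _ _), ls_node _ X0, f2, tP]
      rfl
    · simp only [blk, an, fs_node, ls_node _ (nn' _ _), ls_single, f3, tP]
      rfl
    · simp only [blk, app_pc, fs_node, ls_node _ (nn' _ _), ls_single, tQ]
      rw [t5 (t := .nil △ X) (by rw [OddHC.ht_node]; omega) (by rw [c1_node0, kX])]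
      rfl
    · simp only [blk, an, app_pc, fs_node, ls_node _ (nn' _ _), ls_single, f3, tQ]
      rfl
    · simp only [blk, an, fs_node, lQ, tQ]
      rw [t0 (t := X △ .nil) (by rw [OddHC.ht_node]; omega) (by rw [c1_node x2, kX, c1_nil])]
      rfl
  | false =>
    have Y0 : Y ≠ .nil := fun h => absurd (hf.2 h) (by simp)
    have fy := fY Y0
    have hy : m ≤ OddHC.ht Y := by
      cases Y with
      | nil => exact absurd rfl Y0
      | node _ A C =>
        rw [OddHC.ht_node]
        exact fy.trans (le_max_left _ _)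
    have y2 : 2 ≤ OddHC.ht Y := by omega
    have g1 : cd m (OddHC.fs Y) = vl d m 0 := t0 fy (c1_fs (by omega) kY)
    have g2 : cd m (OddHC.ls Y) = vl d m u := lY Y0
    have g3 : cd m Y = vl d m 0 := t0 (by omega) kY
    cases e with
    | true =>
      obtain rfl := he.1 rfl
      interval_cases i
      · simp only [blk, an, fs_node, ls_node _ Y0, g2, tL]
        rfl
      · have e1 : OddHC.ls (OddHC.app .nil (.nil △ OddHC.app (pc (d + 1)) (.nil △ Y))) = OddHC.ls Y := by
          rw [ls_app _ (nn' _ _), ls_node _ (app_ne' (nn' _ _)), ls_app _ (nn' _ _), ls_node _ Y0]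
        simp only [blk, e1, g2]
        rw [an, fs_node, tn]
        rfl
      · simp only [blk, an, fs_node, ls_node _ (nn' _ _), lQ, g3, tQ]
        rfl
      · simp only [blk, ls_app _ (nn' _ _), ls_single, fs_app Y0, g1, an]
        rw [tR hQn k1]
        rfl
      · simp only [blk, app_pc, fs_node, ls_single]
        rw [t5 (t := pc d △ (.nil △ Y)) (by have := hqn (t := Y); omega) (k2 _ kY)]
        rfl
      · simp only [blk, fs_node, ls_node _ (nn' _ _), ls_single, tP, g3]
        rfl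
      · simp only [blk, fs_app Y0, g1, ls_app _ (nn' _ _), ls_node _ (nn' _ _), ls_single, tP]
        rfl
      · simp only [blk, app_pc, fs_node, ls_node _ (nn' _ _), ls_single, tQ]
        rw [t0 (t := Y △ .nil) (by rw [OddHC.ht_node]; omega) (by rw [c1_node y2, kY, c1_nil])]
        rfl
      · have e1 : OddHC.ls (OddHC.app (pc (d + 1)) (.nil △ OddHC.app Y (BinaryTree.nil △ .nil))) = .nil := by
          rw [ls_app _ (nn' _ _), ls_node _ (app_ne' (nn' _ _)), ls_app _ (nn' _ _), ls_single]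
        simp only [blk, e1, tn]
        simp only [app_pc, fs_node, tQ]
        rfl
      · simp only [blk, fs_node, lQ, tQ]
        rw [t5 (t := OddHC.app Y (.nil △ .nil)) (by have := ht_app_le' Y (.nil △ .nil); omega)
          (by rw [c1_app, c1_node0, kY, c1_nil])]
        rfl
    | false =>
      have X0 : X ≠ .nil := by
        intro g
        exact absurd (he.2 g) (by simp)
      have hx := hX.le X0
      have x2 : 2 ≤ OddHC.ht X := by omega
      have f1 : cd m (OddHC.fs X) = vl d m 0 :=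
        t0 (hX.fs X0) (c1_fs (by have := hX.fs X0; omega) kX)
      have f2 : cd m (OddHC.ls X) = vl d m 0 :=
        t0 (hX.ls X0) (c1_ls (by have := hX.ls X0; omega) kX)
      have f3 : cd m X = vl d m 0 := t0 (by omega) kX
      interval_cases i
      · simp only [blk, fs_app X0, ls_app _ (nn' _ _), ls_node _ Y0, g2, f1]
        rfl
      · have e1 : OddHC.ls (OddHC.app X (.nil △ OddHC.app (pc (d + 1)) (.nil △ Y))) = OddHC.ls Y := by
          rw [ls_app _ (nn' _ _), ls_node _ (app_ne' (nn' _ _)), ls_app _ (nn' _ _), ls_node _ Y0]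
        simp only [blk, e1, g2, fs_app X0, f1]
        rfl
      · have e1 : OddHC.ls (Y △ OddHC.app X (.nil △ pc (d + 1))) = pc d := by
          rw [ls_node _ (app_ne' (nn' _ _)), ls_app _ (nn' _ _), lQ]
        simp only [blk, e1, fs_node, g3, tQ]
        rfl
      · simp only [blk, ls_app _ (nn' _ _), ls_single, fs_app Y0, g1]
        rw [t5 (t := OddHC.app X (.nil △ pc (d + 1)))
          (by have := ht_app_le' X (.nil △ pc (d + 1)); omega) (by rw [c1_app, kX, k1])]
        rfl
      · simp only [blk, app_pc, fs_node, ls_node _ X0, f2]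
        rw [t5 (t := pc d △ (.nil △ Y)) (by have := hqn (t := Y); omega) (k2 _ kY)]
        rfl
      · simp only [blk, fs_node, ls_node _ (nn' _ _), ls_node _ X0, f2, tP]
        rfl
      · simp only [blk, fs_app Y0, g1, ls_app _ (nn' _ _), ls_node _ (nn' _ _), ls_single, tP]
        rfl
      · simp only [blk, app_pc, fs_node, ls_node _ (nn' _ _), ls_single, tQ]
        rw [t0 (t := Y △ X) (by rw [OddHC.ht_node]; omega) (by rw [c1_node y2, kY, kX])]
        rfl
      · have e1 : OddHC.ls (OddHC.app (pc (d + 1)) (.nil △ OddHC.app Y (X △ .nil))) = X := by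
          rw [ls_app _ (nn' _ _), ls_node _ (app_ne' (nn' _ _)), ls_app _ (nn' _ _), ls_single]
        simp only [blk, e1, f3]
        simp only [app_pc, fs_node, tQ]
        rfl
      · simp only [blk, fs_node, lQ, tQ]
        rw [t0 (t := OddHC.app Y (X △ .nil)) (by have := ht_app_le' Y (X △ .nil); omega)
          (by rw [c1_app, c1_node x2, kY, kX, c1_nil])]
        rfl

/-- the number of parts 1 -/
def oF : ℕ → ℕ
  | 1 => 2
  | 2 => 2
  | 3 => 1
  | 4 => 1
  | 5 => 1
  | 7 => 1
  | 8 => 1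
  | _ => 0

def oI (e : Bool) : ℕ → ℕ
  | 1 => 2
  | 2 => 1
  | 3 => 1
  | 4 => 1
  | 6 => if e then 1 else 0
  | 8 => if e then 2 else 1
  | 9 => if e then 1 else 0
  | _ => 0

def oB (f e : Bool) (i : ℕ) : ℕ := if f then oF i else oI e i

theorem ht_le_node (X Y : BinaryTree Unit) : OddHC.ht X ≤ OddHC.ht (X △ Y) := by
  rw [OddHC.ht_node]
  omega

/-- the number of parts 1 of a word of a block -/
theorem oB_eq (hd : 1 ≤ d) (hX : X ≠ .nil → 2 ≤ OddHC.ht X) (hY : Y ≠ .nil → 2 ≤ OddHC.ht Y)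
    (kX : c1 X = 0) (kY : c1 Y = 0) (h0 : X ≠ .nil ∨ Y ≠ .nil) {f e : Bool}
    (hf : f = true ↔ Y = .nil) (he : e = true ↔ X = .nil) {i : ℕ} (hi : i < 10) :
    c1 (blk (pc (d + 1)) X Y i) = oB f e i := by
  have an : ∀ t : BinaryTree Unit, OddHC.app .nil t = t := fun _ => rfl
  have kp : c1 (pc (d + 1)) = 0 := c1_pc (by omega)
  have hp : 2 ≤ OddHC.ht (pc (d + 1)) := by rw [ht_pc]; omega
  have kL : ∀ t, c1 ((pc (d + 1) △ .nil) △ t) = c1 t := by
    intro t
    rw [c1_node (by rw [OddHC.ht_node, ht_pc]; omega), c1_node hp, kp, c1_nil]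
    omega
  have kP : ∀ t, c1 (pc (d + 1) △ t) = c1 t := fun t => c1_pcn (by omega) t
  have kQ : ∀ t, c1 (pc d △ t) = c1 t := fun t => c1_pcn hd t
  unfold oB
  cases f with
  | true =>
    obtain rfl := hf.1 rfl
    have X0 : X ≠ .nil := h0.resolve_right (fun h => h rfl)
    have x2 := hX X0
    have n1 : 2 ≤ OddHC.ht (OddHC.app X (.nil △ pc (d + 1))) := x2.trans (ht_app_le' _ _)
    have n4 : 2 ≤ OddHC.ht (pc d △ (BinaryTree.nil △ .nil)) := by
      rw [OddHC.ht_node, OddHC.ht_node, ht_pc]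
      omega
    have n7 : 2 ≤ OddHC.ht (BinaryTree.nil △ X) := by
      rw [OddHC.ht_node]
      omega
    have n9 : 2 ≤ OddHC.ht (X △ .nil) := x2.trans (ht_le_node _ _)
    interval_cases i <;>
      simp only [blk, app_pc, an, c1_app, kL, kP, kQ, c1_node0, c1_node x2, c1_node n1, c1_node n4, c1_node n7,
        c1_node n9, kX, kp, c1_nil] <;> rfl
  | false =>
    have Y0 : Y ≠ .nil := fun h => absurd (hf.2 h) (by simp)
    have y2 := hY Y0
    have m4 : 2 ≤ OddHC.ht (pc d △ (BinaryTree.nil △ Y)) := by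
      rw [OddHC.ht_node, OddHC.ht_node]
      omega
    have m9 : ∀ t, 2 ≤ OddHC.ht (OddHC.app Y t) := fun t => y2.trans (ht_app_le' _ _)
    have m7 : ∀ t, 2 ≤ OddHC.ht (Y △ t) := fun t => y2.trans (ht_le_node _ _)
    cases e with
    | true =>
      obtain rfl := he.1 rfl
      have n3 : 2 ≤ OddHC.ht (BinaryTree.nil △ pc (d + 1)) := by
        rw [OddHC.ht_node, ht_pc]
        omega
      interval_cases i <;>
        simp only [blk, app_pc, an, c1_app, kL, kP, kQ, c1_node0, c1_node y2, c1_node m4, c1_node (m9 _),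
          c1_node (m7 _), c1_node n3, kY, kp, c1_nil] <;> rfl
    | false =>
      have X0 : X ≠ .nil := by
        intro g
        exact absurd (he.2 g) (by simp)
      have x2 := hX X0
      have n1 : 2 ≤ OddHC.ht (OddHC.app X (.nil △ pc (d + 1))) := x2.trans (ht_app_le' _ _)
      interval_cases i <;>
        simp only [blk, app_pc, an, c1_app, kL, kP, kQ, c1_node0, c1_node x2, c1_node y2, c1_node n1,
          c1_node m4, c1_node (m9 _), c1_node (m7 _), kX, kY, kp, c1_nil] <;> rfl

end BwL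

end Pool.OddHC
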