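import Pool.Agent.Work.MP_8f87b2_h55.BwLaw3

/-!
MP_8f87b2_co: THE SAME LEVEL `q`. Two blocks `Bk q`: top components of height at least `q + 3`, no part 1; `Y` may be
the exceptional `[q + 3][q + 2]`. `blk_same`: a common word only for the words 0, 0 or the same index and the same block.
-/

set_option autoImplicit false

namespace Pool.OddHC

open Finset Equiv BinaryTree Multiset Pool.Agent.Work.MP_8f87b2_co

namespace BwL

open I0

variable {d m q : ℕ} {X Y X' Y' : BinaryTree Unit}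

/-- the data of a block -/
structure Bk (q : ℕ) (X Y : BinaryTree Unit) : Prop where
  hX : HC (q + 3) X
  hY : HC (q + 3) Y ∨ Y = pc (q + 2) △ pc (q + 2)
  kX : c1 X = 0
  kY : c1 Y = 0
  ne : X ≠ .nil ∨ Y ≠ .nil

theorem Bk.fY (h : Bk q X Y) (Y0 : Y ≠ .nil) : q + 3 ≤ OddHC.ht (OddHC.fs Y) + 1 := by
  rcases h.hY with h1 | h1
  · exact h1.fs Y0
  · rw [h1, fs_node, ht_pc]

theorem Bk.htX (h : Bk q X Y) (X0 : X ≠ .nil) : q + 3 ≤ OddHC.ht X := h.hX.le X0

theorem ht_of_fs (h : m ≤ OddHC.ht (OddHC.fs Y) + 1) (Y0 : Y ≠ .nil) : m ≤ OddHC.ht Y := by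
  cases Y with
  | nil => exact absurd rfl Y0
  | node _ A C =>
    rw [OddHC.ht_node]
    exact h.trans (le_max_left _ _)

theorem Bk.htY (h : Bk q X Y) (Y0 : Y ≠ .nil) : q + 3 ≤ OddHC.ht Y := ht_of_fs (h.fY Y0) Y0

/-- the code of the last component of `Y`, threshold `q + 3` -/
theorem Bk.lY (h : Bk q X Y) : ∃ u, (u = 0 ∨ u = 3 ∧ Y = pc (q + 2) △ pc (q + 2)) ∧
    (Y ≠ .nil → cd (q + 3) (OddHC.ls Y) = vl q (q + 3) u) := by
  rcases h.hY with h1 | h1
  · refine ⟨0, Or.inl rfl, fun Y0 => ?_⟩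
    have h2 := h1.ls Y0
    exact cd_ge h2 (c1_ls (by omega) h.kY)
  · refine ⟨3, Or.inr ⟨rfl, h1⟩, fun _ => ?_⟩
    have e : OddHC.ls Y = pc (q + 1) := by
      rw [h1, ls_node _ (by rw [pc_succ]; exact nn' _ _), pc_succ (q + 1), ls_single]
    rw [e, cd_lt (by rw [ht_pc]; omega), ht_pc]
    exact (if_pos (by omega)).symm

/-- a lower threshold -/
theorem Bk.hY' (h : Bk q X Y) (hm : m ≤ q + 2) : HC m Y := by
  rcases h.hY with h1 | h1
  · exact h1.mono (by omega)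
  · rw [h1, pc_succ (q + 1)]
    exact ⟨by rw [← pc_succ, ht_pc]; omega, by rw [ht_pc]; omega, trivial⟩

/-- the same code for `(Q)`, `(Q ())` -/
def nr (a : ℕ) : ℕ := if a = 4 then 3 else a

theorem vl_inj (hd : 1 ≤ d) {a b : ℕ} (ha : a ≤ 5) (hb : b ≤ 5) (h : vl d (d + 3) a = vl d (d + 3) b) :
    nr a = nr b := by
  interval_cases a <;> interval_cases b <;> simp only [vl, nr] at h ⊢ <;> first | rfl | (exfalso; omega) |
    (exfalso; split_ifs at h <;> omega)

theorem cB_le (f e : Bool) {u : ℕ} (hu : u = 0 ∨ u = 3) {i : ℕ} (hi : i < 10) :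
    (cB f e u i).1 ≤ 5 ∧ (cB f e u i).2 ≤ 5 := by
  rcases hu with rfl | rfl <;> cases f <;> cases e <;> interval_cases i <;> decide

/-- the pairs of words with the same codes and the same number of 1's, the same level -/
def spS (f e : Bool) (u i : ℕ) (f' e' : Bool) (j : ℕ) : Prop :=
  (i = 0 ∧ j = 0) ∨ (f = f' ∧ i = j) ∨
  (f = true ∧ i = 3 ∧ f' = false ∧ e' = true ∧ j = 4) ∨
  (f = true ∧ i = 8 ∧ f' = false ∧ e' = false ∧ j = 8) ∨
  (f = true ∧ i = 4 ∧ f' = true ∧ j = 5) ∨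
  (f = false ∧ e = true ∧ i = 3 ∧ f' = false ∧ e' = true ∧ j = 6) ∨
  (f = true ∧ i = 6 ∧ f' = false ∧ e' = false ∧ j = 6) ∨
  (f = true ∧ i = 9 ∧ f' = false ∧ e' = false ∧ j = 9) ∨
  (f = false ∧ u = 3 ∧ i = 0 ∧ j = 6 ∧ (f' = true ∨ (f' = false ∧ e' = false)))

instance (f e : Bool) (u i : ℕ) (f' e' : Bool) (j : ℕ) : Decidable (spS f e u i f' e' j) := by
  unfold spS; infer_instance

set_option synthInstance.maxSize 4000 in
theorem pairS : ∀ i < 10, ∀ j < 10, ∀ f e f' e' v v' : Bool, oB f e i = oB f' e' j →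
    nr (cB f e (if v then 3 else 0) i).1 = nr (cB f' e' (if v' then 3 else 0) j).1 →
    nr (cB f e (if v then 3 else 0) i).2 = nr (cB f' e' (if v' then 3 else 0) j).2 →
    spS f e (if v then 3 else 0) i f' e' j ∨ spS f' e' (if v' then 3 else 0) j f e i := by
  decide +kernel

theorem last_inj {A A' : BinaryTree Unit} (h : OddHC.app Y (A △ .nil) = OddHC.app Y' (A' △ .nil)) :
    Y = Y' ∧ A = A' := by
  have h1 := congrArg OddHC.ls h
  rw [ls_app _ (nn' _ _), ls_app _ (nn' _ _), ls_single, ls_single] at h1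
  rw [h1] at h
  exact ⟨app_cancel_right _ h, h1⟩

theorem app_snoc (Y A P : BinaryTree Unit) : OddHC.app Y (A △ P) = OddHC.app (OddHC.app Y (A △ .nil)) P := by
  rw [app_assoc']
  rfl

theorem nd {A C A' C' : BinaryTree Unit} (h : A △ C = A' △ C') : A = A' ∧ C = C' :=
  ⟨congrArg OddHC.fs h, congrArg OddHC.tl h⟩

/-- blocks with `Y`, `Y'` empty, the same index -/
theorem ff_same {Q : BinaryTree Unit} {i : ℕ} (hi : i < 10) (h : blk Q X .nil i = blk Q X' .nil i) : X = X' := by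
  interval_cases i
  · exact app_cancel_right _ h
  · exact app_cancel_right _ h
  · exact app_cancel_right _ (nd h).2
  · exact app_cancel_right _ (nd h).1
  · exact (nd h).2
  · exact (nd (nd h).2).2
  · exact (nd h).1
  · exact (nd (nd (app_cancel_left _ h)).1).2
  · exact (nd (nd (app_cancel_left _ h)).2).1
  · exact (nd (nd h).1).1

/-- blocks with the same index -/
theorem ii_same {Q : BinaryTree Unit} (h3 : 3 ≤ m) (hX : HC m X) (hX' : HC m X') {i : ℕ} (hi : i < 10) (hi0 : i ≠ 0)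
    (h : blk Q X Y i = blk Q X' Y' i) : X = X' ∧ Y = Y' := by
  have hs : ∀ {A A' : BinaryTree Unit}, OddHC.app Y (A △ .nil) = OddHC.app Y' (A' △ .nil) → A = A' ∧ Y = Y' :=
    fun h => ⟨(last_inj h).2, (last_inj h).1⟩
  have h0 : OddHC.ht (BinaryTree.nil : BinaryTree Unit) + 1 < m := by rw [ht_nil0]; omega
  interval_cases i
  · exact absurd rfl hi0
  · obtain ⟨a, _, b⟩ := hc_split h0 h0 hX hX' (show OddHC.app X (.nil △ OddHC.app Q (.nil △ Y)) =
      OddHC.app X' (.nil △ OddHC.app Q (.nil △ Y')) from h)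
    exact ⟨a, (nd (app_cancel_left _ b)).2⟩
  · exact ⟨app_cancel_right _ (nd h).2, (nd h).1⟩
  · have := hs (show OddHC.app Y (OddHC.app X (.nil △ Q) △ .nil) = OddHC.app Y' (OddHC.app X' (.nil △ Q) △ .nil) from h)
    exact ⟨app_cancel_right _ this.1, this.2⟩
  · exact ⟨(nd h).2, (nd (app_cancel_left _ (nd h).1)).2⟩
  · exact ⟨(nd (nd h).2).2, (nd (nd h).2).1⟩
  · have h1 : OddHC.app Y (X △ (Q △ .nil)) = OddHC.app Y' (X' △ (Q △ .nil)) := h
    rw [app_snoc, app_snoc Y'] at h1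
    exact hs (app_cancel_right _ h1)
  · have h1 := (nd (app_cancel_left _ (show OddHC.app Q ((Y △ X) △ .nil) = OddHC.app Q ((Y' △ X') △ .nil) from h))).1
    exact ⟨(nd h1).2, (nd h1).1⟩
  · exact hs (nd (app_cancel_left _ (show OddHC.app Q (.nil △ OddHC.app Y (X △ .nil)) =
      OddHC.app Q (.nil △ OddHC.app Y' (X' △ .nil)) from h))).2
  · exact hs (nd (show OddHC.app Y (X △ .nil) △ Q = OddHC.app Y' (X' △ .nil) △ Q from h)).1

/-- the special pairs give nothing -/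
theorem spS_no (hq : 1 ≤ q) (h : Bk q X Y) (h' : Bk q X' Y') {f e f' e' : Bool} (hf : f = true ↔ Y = .nil)
    (he : e = true ↔ X = .nil) (hf' : f' = true ↔ Y' = .nil) (he' : e' = true ↔ X' = .nil) {u i j : ℕ}
    (hi : i < 10) (hu : u = 3 → Y = pc (q + 2) △ pc (q + 2))
    (heq : blk (pc (q + 1)) X Y i = blk (pc (q + 1)) X' Y' j) (hsp : spS f e u i f' e' j) :
    (i = 0 ∧ j = 0) ∨ (i = j ∧ X = X' ∧ Y = Y') := by
  have nf : ∀ {e : Bool} {t : BinaryTree Unit}, (e = true ↔ t = .nil) → e = false → t ≠ .nil := by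
    intro e t h g g1
    rw [h.2 g1] at g
    exact absurd g (by simp)
  rcases hsp with g | ⟨rfl, rfl⟩ | ⟨rfl, rfl, rfl, rfl, rfl⟩ | ⟨rfl, rfl, rfl, rfl, rfl⟩ | ⟨rfl, rfl, rfl, rfl⟩ |
    ⟨rfl, rfl, rfl, rfl, rfl, rfl⟩ | ⟨rfl, rfl, rfl, rfl, rfl⟩ | ⟨rfl, rfl, rfl, rfl, rfl⟩ |
    ⟨rfl, rfl, rfl, rfl, g⟩
  · exact Or.inl g
  · by_cases hi0 : i = 0
    · exact Or.inl ⟨hi0, hi0⟩
    · exact Or.inr ⟨rfl, ii_same (m := q + 3) (by omega) h.hX h'.hX hi hi0 heq⟩
  · -- F3 - I4t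
    exfalso
    obtain rfl := hf.1 rfl
    have X0 : X ≠ .nil := h.ne.resolve_right (fun h => h rfl)
    obtain rfl := he'.1 rfl
    have h1 : OddHC.app X (.nil △ pc (q + 1)) △ .nil = (pc q △ (.nil △ Y')) △ .nil := heq
    have h2 := congrArg OddHC.fs (nd h1).1
    rw [fs_app X0, fs_node] at h2
    have h3 := h.hX.fs X0
    rw [h2, ht_pc] at h3
    omega
  · -- F8 - I8f
    exfalso
    obtain rfl := hf.1 rfl
    have Y0' := nf hf' rfl
    have h1 : pc q △ (.nil △ (X △ .nil)) = pc q △ (.nil △ OddHC.app Y' (X' △ .nil)) := heq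
    have h2 := congrArg nc (nd (nd h1).2).2
    have h3 := nc_pos Y0'
    rw [nc_app, nc_node, nc_node, nc_nil] at h2
    omega
  · -- F4 - F5
    exfalso
    have h1 : OddHC.app (pc (q + 1)) (.nil △ Y) = pc (q + 1) := congrArg OddHC.fs heq
    have h2 := congrArg nc h1
    rw [nc_app, pc_succ, nc_node, nc_node, nc_nil] at h2
    omega
  · -- I3t - I6t
    exfalso
    have h1 := congrArg OddHC.ls heq
    obtain rfl := he.1 rfl
    simp only [blk, ls_app _ (nn' _ _), ls_node _ (nn' _ _), ls_single] at h1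
    have h2 := congrArg nc h1
    rw [nc_app, pc_succ, nc_node, nc_node, nc_nil] at h2
    omega
  · -- F6 - I6f
    exfalso
    obtain rfl := hf.1 rfl
    have Y0' := nf hf' rfl
    have h1 : X △ (pc (q + 1) △ .nil) = OddHC.app Y' (X' △ (pc (q + 1) △ .nil)) := heq
    have h2 := congrArg nc h1
    have h3 := nc_pos Y0'
    simp only [nc_app, nc_node, nc_nil] at h2
    omega
  · -- F9 - I9f
    exfalso
    obtain rfl := hf.1 rfl
    have Y0' := nf hf' rfl
    have h1 : (X △ .nil) △ pc (q + 1) = OddHC.app Y' (X' △ .nil) △ pc (q + 1) := heq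
    have h2 := congrArg nc (nd h1).1
    have h3 := nc_pos Y0'
    rw [nc_app, nc_node, nc_node, nc_nil] at h2
    omega
  · -- the exceptional word 0
    exfalso
    have hY := hu rfl
    have h1 : OddHC.app (OddHC.app X ((pc (q + 1) △ .nil) △ (pc (q + 2) △ .nil))) (pc (q + 1) △ .nil) =
        OddHC.app (OddHC.app Y' (X' △ .nil)) (pc (q + 1) △ .nil) := by
      have e1 : blk (pc (q + 1)) X Y 0 = OddHC.app X ((pc (q + 1) △ .nil) △ (pc (q + 2) △ (pc (q + 1) △ .nil))) := by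
        rw [hY]
        rfl
      have e2 : blk (pc (q + 1)) X' Y' 6 = OddHC.app Y' (X' △ (pc (q + 1) △ .nil)) := rfl
      rw [e1, e2] at heq
      rw [app_assoc', app_assoc']
      exact heq
    have h2 := app_cancel_right _ h1
    have h3 := congrArg OddHC.ls h2
    rw [ls_app _ (nn' _ _), ls_app _ (nn' _ _), ls_node _ (nn' _ _), ls_single, ls_single] at h3
    rcases g with g | ⟨_, g⟩
    · obtain rfl := hf'.1 g
      have h4 := congrArg nc h2
      rw [nc_app, nc_app, nc_node, nc_node, nc_node, nc_nil] at h4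
      omega
    · have h5 := h'.htX (nf he' g)
      rw [← h3, ht_pc] at h5
      omega

/-- **the same level** -/
theorem blk_same (hq : 1 ≤ q) (h : Bk q X Y) (h' : Bk q X' Y') {i j : ℕ} (hi : i < 10) (hj : j < 10)
    (heq : blk (pc (q + 1)) X Y i = blk (pc (q + 1)) X' Y' j) :
    (i = 0 ∧ j = 0) ∨ (i = j ∧ X = X' ∧ Y = Y') := by
  obtain ⟨e, he⟩ := exB X
  obtain ⟨f, hf⟩ := exB Y
  obtain ⟨e', he'⟩ := exB X'
  obtain ⟨f', hf'⟩ := exB Y'
  obtain ⟨u, hu, lu⟩ := h.lY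
  obtain ⟨u', hu', lu'⟩ := h'.lY
  have c := cB_eq (m := q + 3) hq (by omega) le_rfl h.hX h.fY lu h.kX h.kY h.ne hf he hi
  have c' := cB_eq (m := q + 3) hq (by omega) le_rfl h'.hX h'.fY lu' h'.kX h'.kY h'.ne hf' he' hj
  have o := oB_eq hq (fun g => by have := h.htX g; omega) (fun g => by have := h.htY g; omega) h.kX h.kY h.ne hf he hi
  have o' := oB_eq hq (fun g => by have := h'.htX g; omega) (fun g => by have := h'.htY g; omega) h'.kX h'.kY h'.ne
    hf' he' hj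
  rw [heq, c'] at c
  rw [heq, o'] at o
  have c1 := congrArg Prod.fst c
  have c2 := congrArg Prod.snd c
  simp only at c1 c2
  obtain ⟨v, hv⟩ : ∃ v : Bool, u = if v then 3 else 0 := by
    rcases hu with g | ⟨g, _⟩
    · exact ⟨false, g⟩
    · exact ⟨true, g⟩
  obtain ⟨v', hv'⟩ : ∃ v : Bool, u' = if v then 3 else 0 := by
    rcases hu' with g | ⟨g, _⟩
    · exact ⟨false, g⟩
    · exact ⟨true, g⟩
  have u1 : u = 0 ∨ u = 3 := hu.imp id (fun g => g.1)
  have u1' : u' = 0 ∨ u' = 3 := hu'.imp id (fun g => g.1)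
  have b := cB_le f e u1 hi
  have b' := cB_le f' e' u1' hj
  have n1 := vl_inj hq b'.1 b.1 c1
  have n2 := vl_inj hq b'.2 b.2 c2
  have w : u = 3 → Y = pc (q + 2) △ pc (q + 2) := by
    intro g
    rcases hu with g1 | ⟨_, g1⟩
    · omega
    · exact g1
  have w' : u' = 3 → Y' = pc (q + 2) △ pc (q + 2) := by
    intro g
    rcases hu' with g1 | ⟨_, g1⟩
    · omega
    · exact g1
  rw [hv, hv'] at n1 n2
  rcases pairS i hi j hj f e f' e' v v' o.symm n1.symm n2.symm with g | g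
  · rw [← hv] at g
    exact spS_no hq h h' hf he hf' he' hi w heq g
  · rw [← hv'] at g
    rcases spS_no hq h' h hf' he' hf he hj w' heq.symm g with g | ⟨a, b, c⟩
    · exact Or.inl ⟨g.2, g.1⟩
    · exact Or.inr ⟨a.symm, b.symm, c.symm⟩

end BwL

end Pool.OddHC
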