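import Mathlib

/-! # The choice of the marker position for three solitons

Content `(a, b, c)` with `c` the unique smallest part, `m = a - c`, `y = b - c`,
`n = 2 * (m + y) + 1` (constant along the chain `(a, b) → (a-1, b+1)`), `g = gcd y n`.
The `B`-windows of the class `l mod g` are the `p ≡ l mod g` with
`1 ≤ p ≤ m - 2` or `m + 2 ≤ p ≤ 2 m - 2`.  Two windows of neighbours collide exactly when
`p + y = p' + y'` with `y' = y + 1` or `y' = y + 2`.  The function `cf` chooses a window for every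
class without any collision, with `p = 1` whenever `g = 1`. -/

namespace H55C3

/-- the number `g` of the content. -/
def cg (m y : ℕ) : ℕ := Nat.gcd y (2 * (m + y) + 1)

/-- the representative of `l mod g` in `[1, 4 g - 3]` that is `1 mod 4` (for odd `g`). -/
def pf (g l : ℕ) : ℕ := l % g + g * ((g * (1 + 3 * (l % g))) % 4)

/-- the representative of `l mod g` in `[2 m - 1 - g, 2 m - 2]`. -/
def ph (m g l : ℕ) : ℕ := (2 * m - 2) - (2 * m - 2 + (g - l % g)) % g

/-- the allowed positions. -/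
def AD (m p : ℕ) : Prop := (1 ≤ p ∧ p + 2 ≤ m) ∨ (m + 2 ≤ p ∧ p + 2 ≤ 2 * m)

instance (m p : ℕ) : Decidable (AD m p) := by unfold AD; infer_instance

/-- three exceptional classes (`0` means: no exception). -/
def ex (m y r : ℕ) : ℕ :=
  if m = 4 ∧ y = 3 ∧ r = 2 then 2 else
  if m = 7 ∧ y = 5 ∧ r = 3 then 3 else
  if m = 12 ∧ y = 5 ∧ r = 3 then 8 else 0

/-- the chosen position. -/
def cf (m y l : ℕ) : ℕ :=
  if cg m y = 1 then 1 else
  if ex m y (l % cg m y) ≠ 0 then ex m y (l % cg m y) else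
  if AD m (pf (cg m y) l) then pf (cg m y) l else ph m (cg m y) l

theorem cf_one {m y : ℕ} (l : ℕ) (h : cg m y = 1) : cf m y l = 1 := by
  simp [cf, h]

theorem cf_lmod (m y l : ℕ) : cf m y l = cf m y (l % cg m y) := by
  simp [cf, pf, ph]

/-! ## basic facts -/

theorem cg_pos (m y : ℕ) : 0 < cg m y := Nat.gcd_pos_of_pos_right _ (by omega)

theorem cg_dvd_y (m y : ℕ) : cg m y ∣ y := Nat.gcd_dvd_left _ _

theorem cg_dvd_n (m y : ℕ) : cg m y ∣ 2 * (m + y) + 1 := Nat.gcd_dvd_right _ _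

theorem cg_odd (m y : ℕ) : cg m y % 2 = 1 := by
  have h := cg_dvd_n m y
  rcases Nat.mod_two_eq_zero_or_one (cg m y) with h0 | h0
  · exfalso
    have h2 : 2 ∣ cg m y := Nat.dvd_of_mod_eq_zero h0
    have h3 := h2.trans h
    omega
  · exact h0

theorem pf_mod4 {g : ℕ} (l : ℕ) (hg : g % 2 = 1) : pf g l % 4 = 1 := by
  unfold pf
  generalize l % g = r
  have e : (r + g * ((g * (1 + 3 * r)) % 4)) % 4
      = ((r % 4) + (g % 4) * (((g % 4) * (1 + 3 * (r % 4))) % 4)) % 4 := by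
    simp [Nat.add_mod, Nat.mul_mod]
  rw [e]
  have h1 : g % 4 = 1 ∨ g % 4 = 3 := by omega
  have h2 : r % 4 = 0 ∨ r % 4 = 1 ∨ r % 4 = 2 ∨ r % 4 = 3 := by omega
  rcases h1 with h1 | h1 <;> rcases h2 with h2 | h2 | h2 | h2 <;> rw [h1, h2]

theorem pf_lt {g : ℕ} (l : ℕ) (hg : 0 < g) : pf g l < 4 * g := by
  unfold pf
  have h1 : l % g < g := Nat.mod_lt _ hg
  have h2 : (g * (1 + 3 * (l % g))) % 4 ≤ 3 := by omega
  have h3 : g * ((g * (1 + 3 * (l % g))) % 4) ≤ g * 3 := Nat.mul_le_mul_left _ h2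
  omega

theorem pf_mod (g l : ℕ) : pf g l % g = l % g := by
  unfold pf
  rw [Nat.add_mul_mod_self_left, Nat.mod_mod]

theorem ph_mod {m g l : ℕ} (hg : 0 < g) (h : g ≤ 2 * m - 1) : ph m g l % g = l % g := by
  unfold ph
  have h1 : l % g < g := Nat.mod_lt _ hg
  set r := l % g with hr
  set M := 2 * m - 2 with hM
  have h2 : (M + (g - r)) % g < g := Nat.mod_lt _ hg
  set s := (M + (g - r)) % g with hs
  have h4 : s ≤ M := by omega
  have h5 : (M + (g - r)) = g * ((M + (g - r)) / g) + s := by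
    rw [hs]; exact (Nat.div_add_mod _ _).symm
  have h6 : (M - s) + g = g * ((M + (g - r)) / g) + r := by omega
  have h7 : ((M - s) + g) % g = r := by
    rw [h6, Nat.mul_add_mod, Nat.mod_eq_of_lt h1]
  rwa [Nat.add_mod_right] at h7

theorem ph_le (m g l : ℕ) : ph m g l ≤ 2 * m - 2 := by
  unfold ph; omega

theorem ph_ge {m g : ℕ} (l : ℕ) (hg : 0 < g) : 2 * m - 1 - g ≤ ph m g l := by
  unfold ph
  have h2 : (2 * m - 2 + (g - l % g)) % g < g := Nat.mod_lt _ hg
  omega

theorem ex_small {m y r : ℕ} (h : 13 ≤ m) : ex m y r = 0 := by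
  unfold ex
  rw [if_neg (by omega), if_neg (by omega), if_neg (by omega)]

/-! ## the finite part -/

/-- the check for one content. -/
def chk (m y : ℕ) : Bool :=
  (cg m y == 1) || ((List.range (cg m y)).all fun l =>
    decide (AD m (cf m y l)) && decide (cf m y l % cg m y = l) &&
    (decide (m < y + 2) || (List.range (cg (m - 1) (y + 1))).all fun k =>
      decide (cf m y l ≠ cf (m - 1) (y + 1) k + 1)) &&
    (decide (m < y + 4) || (List.range (cg (m - 2) (y + 2))).all fun k =>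
      decide (cf m y l ≠ cf (m - 2) (y + 2) k + 2)))

theorem chk_all : ((List.range 85).all fun w => (List.range (w / 2)).all fun y =>
    chk (w - (y + 1)) (y + 1)) = true := by
  decide +kernel

theorem chk_of {m y : ℕ} (hm : m + y ≤ 84) (h : y ≤ m) (h1 : 1 ≤ y) : chk m y = true := by
  have h0 := chk_all
  rw [List.all_eq_true] at h0
  have h2 := h0 (m + y) (List.mem_range.2 (by omega))
  rw [List.all_eq_true] at h2
  have h3 := h2 (y - 1) (List.mem_range.2 (by omega))
  rwa [Nat.sub_add_cancel h1, Nat.add_sub_cancel] at h3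

theorem chk_spec {m y : ℕ} (l : ℕ) (h : chk m y = true) (hg : cg m y ≠ 1) :
    AD m (cf m y l) ∧ cf m y l % cg m y = l % cg m y ∧
    (∀ k, y + 2 ≤ m → cf m y l ≠ cf (m - 1) (y + 1) k + 1) ∧
    (∀ k, y + 4 ≤ m → cf m y l ≠ cf (m - 2) (y + 2) k + 2) := by
  rw [cf_lmod]
  have hl : l % cg m y < cg m y := Nat.mod_lt _ (cg_pos _ _)
  unfold chk at h
  rw [Bool.or_eq_true] at h
  rcases h with h | h
  · exact absurd (by simpa using h) hg
  rw [List.all_eq_true] at h
  have h1 := h (l % cg m y) (List.mem_range.2 hl)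
  simp only [Bool.and_eq_true, Bool.or_eq_true, decide_eq_true_eq, List.all_eq_true,
    List.mem_range] at h1
  obtain ⟨⟨⟨h1, h2⟩, h3⟩, h4⟩ := h1
  refine ⟨h1, h2, ?_, ?_⟩
  · intro k hk
    rcases h3 with h3 | h3
    · omega
    · rw [cf_lmod (m - 1) (y + 1) k]
      exact h3 _ (Nat.mod_lt _ (cg_pos _ _))
  · intro k hk
    rcases h4 with h4 | h4
    · omega
    · rw [cf_lmod (m - 2) (y + 2) k]
      exact h4 _ (Nat.mod_lt _ (cg_pos _ _))

/-! ## the general part -/

/-- what `cf` is for a large content: either `1 mod 4` and small, or in the high block and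
`2 m + 1 ≤ 7 g`. -/
theorem cf_big {m y : ℕ} (l : ℕ) (hm : 43 ≤ m) :
    (cf m y l % 4 = 1 ∧ cf m y l < 4 * cg m y ∧ (cg m y = 1 ∨ AD m (cf m y l))) ∨
    (2 * m - 1 - cg m y ≤ cf m y l ∧ cf m y l ≤ 2 * m - 2 ∧ cg m y ≠ 1 ∧ m < 4 * cg m y) := by
  have hp := cg_pos m y
  have ho := cg_odd m y
  by_cases h1 : cg m y = 1
  · left
    rw [cf_one l h1, h1]
    exact ⟨rfl, by omega, Or.inl rfl⟩
  · unfold cf
    rw [if_neg h1, if_neg (by rw [ex_small (by omega)]; simp)]
    by_cases h2 : AD m (pf (cg m y) l)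
    · rw [if_pos h2]
      left
      exact ⟨pf_mod4 l ho, pf_lt l hp, Or.inr h2⟩
    · rw [if_neg h2]
      right
      refine ⟨ph_ge l hp, ph_le _ _ _, h1, ?_⟩
      by_contra h3
      apply h2
      have h4 := pf_mod4 l ho
      have h5 := pf_lt l hp
      left
      omega

/-- `2 m + 1` is a multiple `q g` with `q` odd and `q ≥ 3` (if `1 < g` and `1 ≤ y ≤ m`);
`n = g (q + 2 t)` with `y = g t`. -/
theorem cg_quot {m y : ℕ} (hy : y ≤ m) (h1 : 1 ≤ y) :
    ∃ q t, 2 * m + 1 = cg m y * q ∧ y = cg m y * t ∧ 3 ≤ q ∧ 2 * t + 1 ≤ q := by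
  obtain ⟨t, ht⟩ := cg_dvd_y m y
  obtain ⟨s, hs⟩ := cg_dvd_n m y
  have hp := cg_pos m y
  generalize cg m y = g at *
  have e1 : 2 * m + 1 = g * s - g * (2 * t) := by
    rw [← hs]
    have : g * (2 * t) = 2 * y := by rw [ht]; ring
    omega
  have h2 : 2 * t ≤ s := by
    by_contra h
    have : g * s ≤ g * (2 * t) := Nat.mul_le_mul_left _ (by omega)
    omega
  have e2 : 2 * m + 1 = g * (s - 2 * t) := by
    rw [Nat.mul_sub, e1]
  have h3 : 1 ≤ t := by
    rcases Nat.eq_zero_or_pos t with h | h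
    · rw [h] at ht; omega
    · exact h
  have h4 : g * (2 * t) < g * (s - 2 * t) := by
    rw [← e2]
    have : g * (2 * t) = 2 * y := by rw [ht]; ring
    omega
  have h5 : 2 * t < s - 2 * t := lt_of_mul_lt_mul_left h4 (Nat.zero_le _)
  exact ⟨s - 2 * t, t, e2, ht, by omega, by omega⟩

/-- the numbers of neighbours are coprime. -/
theorem cg_cop {m y m' y' : ℕ} (hn : m + y = m' + y') (hd : y' = y + 1 ∨ y' = y + 2) :
    Nat.Coprime (cg m y) (cg m' y') := by
  have hk : ∀ d, d ∣ cg m y → d ∣ cg m' y' → d = 1 := by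
    intro d h1 h2
    have hodd : d % 2 = 1 := by
      rcases Nat.mod_two_eq_zero_or_one d with h0 | h0
      · exfalso
        have h3 : 2 ∣ cg m y := (Nat.dvd_of_mod_eq_zero h0).trans h1
        have := cg_odd m y
        omega
      · exact h0
    have h3 : d ∣ y := h1.trans (cg_dvd_y _ _)
    have h4 : d ∣ y' := h2.trans (cg_dvd_y _ _)
    rcases hd with hd | hd
    · have h5 : d ∣ 1 := by
        have := Nat.dvd_sub h4 h3
        rwa [hd, Nat.add_sub_cancel_left] at this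
      exact Nat.dvd_one.1 h5
    · have h5 : d ∣ 2 := by
        have := Nat.dvd_sub h4 h3
        rwa [hd, Nat.add_sub_cancel_left] at this
      have h6 := Nat.le_of_dvd (by norm_num) h5
      have h7 : 0 < d := Nat.pos_of_dvd_of_pos h5 (by norm_num)
      omega
  exact Nat.coprime_of_dvd' (fun d _ h1 h2 => by rw [hk d h1 h2])

/-- if `m < 4 g` then the neighbour's number is at most `13`, and `n ≤ 13 g`. -/
theorem cg_nb {m y m' y' : ℕ} (hy : y ≤ m) (h1 : 1 ≤ y) (hn : m + y = m' + y')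
    (hc : Nat.Coprime (cg m y) (cg m' y')) (h4 : m < 4 * cg m y) :
    cg m' y' ≤ 13 ∧ 2 * (m + y) + 1 ≤ 13 * cg m y := by
  obtain ⟨q, t, e1, e2, h3, h5⟩ := cg_quot hy h1
  have hp := cg_pos m y
  have hd := cg_dvd_n m' y'
  rw [← hn] at hd
  have e3 : 2 * (m + y) + 1 = cg m y * (q + 2 * t) := by
    have : cg m y * (q + 2 * t) = cg m y * q + 2 * (cg m y * t) := by ring
    rw [this, ← e1, ← e2]; ring
  rw [e3] at hd
  have hd' : cg m' y' ∣ q + 2 * t := hc.symm.dvd_of_dvd_mul_left hd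
  have hq : q ≤ 7 := by
    by_contra h
    have h8 : 8 ≤ q := by omega
    have : cg m y * 8 ≤ cg m y * q := Nat.mul_le_mul_left _ h8
    omega
  have h13 : q + 2 * t ≤ 13 := by omega
  refine ⟨(Nat.le_of_dvd (by omega) hd').trans h13, ?_⟩
  rw [e3, Nat.mul_comm]
  exact Nat.mul_le_mul_right _ h13

theorem cg_third {m y : ℕ} (hy : y ≤ m) (h1 : 1 ≤ y) : 3 * cg m y ≤ 2 * m + 1 := by
  obtain ⟨q, t, e1, e2, h3, h5⟩ := cg_quot hy h1
  rw [e1, Nat.mul_comm 3]
  exact Nat.mul_le_mul_left _ h3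

/-- no collision in the general case. -/
theorem cf_ne_big {m y m' y' : ℕ} (l k : ℕ) (hw : 85 ≤ m + y) (h1 : 1 ≤ y)
    (hy' : y' ≤ m') (hn : m + y = m' + y') (hd : y' = y + 1 ∨ y' = y + 2) :
    cf m y l ≠ cf m' y' k + (y' - y) := by
  have hy : y ≤ m := by omega
  have hc := cg_cop hn hd
  have hm : 43 ≤ m := by omega
  have hm' : 43 ≤ m' := by omega
  have ht := cg_third hy h1
  have ht' := cg_third hy' (by omega : 1 ≤ y')
  intro he
  rcases cf_big (y := y) l hm with ⟨a1, a2, -⟩ | ⟨a1, a2, a3, a4⟩ <;>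
    rcases cf_big (y := y') k hm' with ⟨b1, b2, -⟩ | ⟨b1, b2, b3, b4⟩
  · omega
  · have h5 := cg_nb hy' (by omega) hn.symm hc.symm b4
    omega
  · have h5 := cg_nb hy h1 hn hc a4
    omega
  · have h5 := cg_nb hy h1 hn hc a4
    have h6 := cg_nb hy' (by omega) hn.symm hc.symm b4
    omega

/-! ## the choice -/

/-- the chosen position is allowed. -/
theorem cf_mem {m y : ℕ} (l : ℕ) (h1 : 1 ≤ y) (hy : y ≤ m) (hg : cg m y ≠ 1 ∨ 3 ≤ m) :
    AD m (cf m y l) := by
  by_cases h : cg m y = 1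
  · rw [cf_one l h]
    left
    omega
  by_cases hw : m + y ≤ 84
  · exact (chk_spec l (chk_of hw hy h1) h).1
  have ht := cg_third hy h1
  rcases cf_big (y := y) l (by omega : 43 ≤ m) with ⟨a1, a2, a3⟩ | ⟨a1, a2, a3, a4⟩
  · rcases a3 with a3 | a3
    · exact absurd a3 h
    · exact a3
  · right
    omega

/-- the chosen position is in the class. -/
theorem cf_mod {m y : ℕ} (l : ℕ) (h1 : 1 ≤ y) (hy : y ≤ m) :
    cf m y l % cg m y = l % cg m y := by
  by_cases h : cg m y = 1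
  · rw [h, Nat.mod_one, Nat.mod_one]
  by_cases hw : m + y ≤ 84
  · exact (chk_spec l (chk_of hw hy h1) h).2.1
  have ht := cg_third hy h1
  unfold cf
  rw [if_neg h, if_neg (by rw [ex_small (by omega)]; simp)]
  split_ifs
  · exact pf_mod _ _
  · exact ph_mod (cg_pos _ _) (by omega)

theorem cf_pos {m y : ℕ} (l : ℕ) (h1 : 1 ≤ y) (hy : y ≤ m) : 1 ≤ cf m y l := by
  by_cases h : cg m y = 1
  · rw [cf_one l h]
  · rcases cf_mem l h1 hy (Or.inl h) with h2 | h2 <;> omega

/-- no collision of one-step neighbours. -/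
theorem cf_ne1 {m y : ℕ} (l k : ℕ) (h1 : 1 ≤ y) (hy : y + 2 ≤ m) :
    cf m y l ≠ cf (m - 1) (y + 1) k + 1 := by
  by_cases hw : m + y ≤ 84
  · by_cases h : cg m y = 1
    · rw [cf_one l h]
      have := cf_pos (m := m - 1) (y := y + 1) k (by omega) (by omega)
      omega
    · exact (chk_spec l (chk_of hw (by omega) h1) h).2.2.1 k hy
  · have := cf_ne_big (m := m) (y := y) (m' := m - 1) (y' := y + 1) l k (by omega) h1 (by omega)
      (by omega) (Or.inl rfl)
    rwa [Nat.add_sub_cancel_left] at this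

/-- no collision of two-step neighbours. -/
theorem cf_ne2 {m y : ℕ} (l k : ℕ) (h1 : 1 ≤ y) (hy : y + 4 ≤ m) :
    cf m y l ≠ cf (m - 2) (y + 2) k + 2 := by
  by_cases hw : m + y ≤ 84
  · by_cases h : cg m y = 1
    · rw [cf_one l h]
      omega
    · exact (chk_spec l (chk_of hw (by omega) h1) h).2.2.2 k hy
  · have := cf_ne_big (m := m) (y := y) (m' := m - 2) (y' := y + 2) l k (by omega) h1 (by omega)
      (by omega) (Or.inr rfl)
    rwa [Nat.add_sub_cancel_left] at this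

end H55C3
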